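import Pool.Agent.Helper42.LK.KMTa

open Filter Topology NumberField

namespace Pool.Agent.Helper42.LK

open Pool.Agent.Helper42.LS

lemma kmt_cu {F : Type} [Field F] {A B : F} {x y : ℕ → F} (hg : GSeq (0 : F) A B x y) (k : ℕ)
    (hk : 1 ≤ k) : cu A B (x k) ≠ 0 := by
  have h1 : cu A B (x k) = y k ^ 2 := by
    have := hg.curve k hk
    unfold cu
    linear_combination -this
  rw [h1]
  exact pow_ne_zero _ (hg.yne k hk)

/-- the logarithmic product formula for an element that is a unit outside a finite set -/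
lemma kmt_prod {K : Type} [Field K] [NumberField K] {z : K} (hz : z ≠ 0)
    (S : Finset (FinitePlace K)) (hS : ∀ v : FinitePlace K, v ∉ S → v z = 1) :
    ∑ w : InfinitePlace K, (w.mult : ℝ) * Real.log (w z) + ∑ v ∈ S, Real.log (v z) = 0 := by
  have h := NumberField.prod_abs_eq_one (K := K) hz
  have h1 : ∏ᶠ v : FinitePlace K, v z = ∏ v ∈ S, v z := by
    apply finprod_eq_prod_of_mulSupport_subset
    intro v hv
    by_contra h'
    exact hv (hS v (by simpa using h'))
  rw [h1] at h
  have h2 := congrArg Real.log h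
  have hw : ∀ w ∈ (Finset.univ : Finset (InfinitePlace K)), w z ^ w.mult ≠ 0 := fun w _ =>
    pow_ne_zero _ (by simpa using hz)
  have hv : ∀ v ∈ S, v z ≠ 0 := fun v _ => by simpa using hz
  rw [Real.log_one, Real.log_mul (Finset.prod_ne_zero_iff.2 hw) (Finset.prod_ne_zero_iff.2 hv),
    Real.log_prod hw, Real.log_prod hv] at h2
  rw [← h2]
  congr 1
  apply Finset.sum_congr rfl
  intro w _
  rw [Real.log_pow]

theorem st_KMT (hLB : ST_KLB) (hLS : ST_KLS) (hGO : ST_KGO) (hCX : ST_CX) (hPOT : ST_KPOT)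
    (hDF : ST_KDF) (hFP : ST_KFP) : ST_KMT := by
  classical
  obtain ⟨CX, hCX0, hCX⟩ := kmt_arch hCX
  intro K _ _
  -- the places above 2 and 3
  have h6fin : {v : FinitePlace K | ¬ (v 2 = 1 ∧ v 3 = 1)}.Finite := by
    have h := (hDF K (0 : K) (1 : K) (by unfold dsc; norm_num)).1
    refine h.subset ?_
    intro v hv h'
    exact hv ⟨h'.1, h'.2.1⟩
  obtain ⟨S6, hS6⟩ : ∃ S6 : Finset (FinitePlace K), ∀ v, v ∈ S6 ↔ ¬ (v 2 = 1 ∧ v 3 = 1) :=
    ⟨h6fin.toFinset, fun v => by rw [Set.Finite.mem_toFinset]; rfl⟩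
  choose Cv hCv0 hCv using kmt_local hLB hLS hFP K
  set d : ℝ := (Module.finrank ℚ K : ℝ) with hd
  have hd0 : 0 ≤ d := Nat.cast_nonneg _
  set C1 : ℝ := ∑ v ∈ S6, Cv v with hC1
  have hC10 : 0 ≤ C1 := Finset.sum_nonneg fun v _ => hCv0 v
  set C2 : ℝ := ∑ v ∈ S6, lq v with hC2
  have hlq0 : ∀ v : FinitePlace K, 0 < lq v := fun v =>
    lt_of_lt_of_le (Real.log_pos (by norm_num)) (kmt_log_two_le_lq v)
  have hC20 : 0 ≤ C2 := Finset.sum_nonneg fun v _ => (hlq0 v).le
  have hl2 : 0 < Real.log 2 := Real.log_pos (by norm_num)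
  have hl2' : Real.log 2 ≤ 1 := by have := Real.log_two_lt_d9; linarith
  set C3 : ℝ := (Fintype.card (InfinitePlace K) : ℝ) with hC3
  have hC30 : 0 ≤ C3 := Nat.cast_nonneg _
  set C4 : ℝ := (S6.card : ℝ) with hC4
  have hC40 : 0 ≤ C4 := Nat.cast_nonneg _
  set C5 : ℝ := C1 / Real.log 2 with hC5
  have hC50 : 0 ≤ C5 := by positivity
  set C₀ : ℝ := 2 * C1 + C2 + C3 + C4 + C5 + 2 * (d * CX) + 1 with hC₀
  have hC₀0 : 0 ≤ C₀ := by positivity
  have hdCX : 0 ≤ d * CX := by positivity
  refine ⟨C₀, hC₀0, ?_⟩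
  intro A B hD x y e hg he
  obtain ⟨hfin, hloc, hmulfin, hH1, hH2⟩ := hDF K A B hD
  obtain ⟨S, hS⟩ : ∃ S : Finset (FinitePlace K), ∀ v, v ∈ S ↔
      ¬ (v 2 = 1 ∧ v 3 = 1 ∧ v A ≤ 1 ∧ v B ≤ 1 ∧ v (dsc A B) = 1) :=
    ⟨hfin.toFinset, fun v => by rw [Set.Finite.mem_toFinset]; rfl⟩
  have hS6S : S6 ⊆ S := by
    intro v hv
    rw [hS6] at hv
    rw [hS]
    exact fun h' => hv ⟨h'.1, h'.2.1⟩
  have hSD : ∀ v : FinitePlace K, v ∉ S → v (dsc A B) = 1 := by
    intro v hv
    rw [hS, not_not] at hv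
    exact hv.2.2.2.2
  set δ : FinitePlace K → ℝ := fun v => dl (fun x : K => v x) A B with hδ
  have hδ0 : ∀ v, 0 ≤ δ v := fun v => (hloc v).1
  have hδlq : ∀ v, δ v ≠ 0 → lq v ≤ δ v := fun v => (hloc v).2.1
  have hδS : ∀ v : FinitePlace K, v ∉ S → δ v = 0 := by
    intro v hv
    rw [hS, not_not] at hv
    exact (hloc v).2.2.2.2 hv.1 hv.2.1 hv.2.2.1 hv.2.2.2.1 hv.2.2.2.2
  set ε : FinitePlace K → ℝ := fun v => if v 2 = 1 ∧ v 3 = 1 then 0 else Cv v with hε
  have hε0 : ∀ v, 0 ≤ ε v := by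
    intro v
    simp only [hε]
    split_ifs
    · exact le_rfl
    · exact hCv0 v
  have hεsum : ∀ T : Finset (FinitePlace K), ∑ v ∈ T, ε v ≤ C1 := by
    intro T
    have h1 : ∑ v ∈ T, ε v = ∑ v ∈ T.filter (fun v => v ∈ S6), Cv v := by
      rw [Finset.sum_filter]
      apply Finset.sum_congr rfl
      intro v _
      simp only [hε, hS6]
      split_ifs <;> tauto
    rw [h1]
    apply Finset.sum_le_sum_of_subset_of_nonneg
    · intro v hv; exact (Finset.mem_filter.1 hv).2
    · intro v _ _; exact hCv0 v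
  choose wf tf nf U hw0 hwδ hn1 hint hnle hwz hmulv hU1 hU2 hU3 using
    fun v : FinitePlace K => hCv v A B hD x y hg (ε v) rfl
  choose Ui τ hUi1 hUi2 hUi3 using fun w : InfinitePlace K => hCX K w A B hD x y hg
  -- the potential inequality
  have hcne : ∀ k : ℕ, 1 ≤ k → 4 * cu A B (x k) ≠ 0 := fun k hk =>
    mul_ne_zero (by norm_num) (kmt_cu hg k hk)
  have hpot := hPOT K x (fun k => 4 * cu A B (x k)) e he hcne S U ε Ui CX
    (fun v _ k hk => hU1 v k hk)
    (by
      intro v hv k hk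
      have hv' := hv
      rw [hS, not_not] at hv'
      obtain ⟨V, hV, _⟩ := hFP K v
      have := hGO K V (by rw [hV]; exact hv'.1) A B (by rw [hV]; exact hv'.2.2.1)
        (by rw [hV]; exact hv'.2.2.2.1) (by rw [hV]; exact hv'.2.2.2.2) x y hg k hk
      simpa only [hV] using this)
    (fun w k hk => hUi1 w k hk) (fun v _ => hU2 v) (fun w => hUi2 w)
  -- the index sets
  set T : Finset (FinitePlace K) := S.filter (fun v => δ v ≠ 0 ∨ v ∈ S6) with hT
  have hTS : T ⊆ S := Finset.filter_subset _ _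
  have hTδ : ∀ v, v ∉ T → δ v = 0 := by
    intro v hv
    by_contra h'
    by_cases hvS : v ∈ S
    · exact hv (Finset.mem_filter.2 ⟨hvS, Or.inl h'⟩)
    · exact h' (hδS v hvS)
  have hTw : ∀ v ∈ S, v ∉ T → wf v = 0 := by
    intro v hvS hv
    have h6 : v ∉ S6 := fun h' => hv (Finset.mem_filter.2 ⟨hvS, Or.inr h'⟩)
    have h6' : v 2 = 1 ∧ v 3 = 1 := by
      rw [hS6, not_not] at h6; exact h6
    have h1 := hwδ v
    have h2 : ε v = 0 := by simp only [hε]; rw [if_pos h6']
    rw [h2] at h1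
    have h3 := abs_nonpos_iff.1 h1
    have h4 := hTδ v hv
    simp only [hδ] at h4
    rw [h4] at h3
    linarith
  have hLD : LD A B = ∑ v ∈ T, δ v := by
    unfold LD
    apply finsum_eq_sum_of_support_subset
    intro v hv
    by_contra h'
    exact hv (hTδ v (by simpa using h'))
  have hLR : LR A B = ∑ v ∈ T, if 0 < δ v then lq v else 0 := by
    unfold LR
    apply finsum_eq_sum_of_support_subset
    intro v hv
    by_contra h'
    apply hv
    have := hTδ v (by simpa using h')
    simp only [hδ] at this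
    simp [this]
  have hLD0 : 0 ≤ LD A B := by rw [hLD]; exact Finset.sum_nonneg fun v _ => hδ0 v
  have hLR0 : 0 ≤ LR A B := by
    rw [hLR]
    apply Finset.sum_nonneg
    intro v _
    split_ifs
    · exact (hlq0 v).le
    · exact le_rfl
  have hLRLD : LR A B ≤ LD A B := by
    rw [hLR, hLD]
    apply Finset.sum_le_sum
    intro v _
    split_ifs with h
    · exact hδlq v h.ne'
    · exact hδ0 v
  -- arch weights
  set j : K := 6912 * A ^ 3 / dsc A B with hj
  set wi : InfinitePlace K → ℝ := fun w => (w.mult : ℝ) * max 0 (Real.log (w j)) with hwi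
  have hwi0 : ∀ w, 0 ≤ wi w := fun w => mul_nonneg (Nat.cast_nonneg _) (le_max_left _ _)
  set H : ℝ := LD A B + ∑ w : InfinitePlace K, wi w with hH
  have hHi0 : 0 ≤ ∑ w : InfinitePlace K, wi w := Finset.sum_nonneg fun w _ => hwi0 w
  -- number of multiplicative places
  obtain ⟨M, hM⟩ : ∃ M : Finset (FinitePlace K), ∀ v, v ∈ M ↔ IsMul (fun x : K => v x) A B :=
    ⟨hmulfin.toFinset, fun v => by rw [Set.Finite.mem_toFinset]; rfl⟩
  have hmK : mK A B = M.card := by
    unfold mK
    rw [← Set.ncard_coe_finset]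
    congr 1
    ext v
    simp [hM]
  have hmKle : (mK A B : ℝ) * Real.log 2 ≤ LD A B + C₀ := by
    have h1 : ∑ v ∈ M, Real.log 2 ≤ ∑ v ∈ M, (δ v + (if v ∈ S6 then 1 else 0)) := by
      apply Finset.sum_le_sum
      intro v hv
      by_cases h6 : v ∈ S6
      · rw [if_pos h6]; have := hδ0 v; linarith
      · rw [if_neg h6, add_zero]
        have h6' := h6
        rw [hS6, not_not] at h6'
        have h2 := (hloc v).2.2.2.1 h6'.1 h6'.2 ((hM v).1 hv)
        exact (kmt_log_two_le_lq v).trans (hδlq v h2.ne')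
    rw [Finset.sum_const, nsmul_eq_mul, Finset.sum_add_distrib, ← hmK] at h1
    have h2 : ∑ v ∈ M, δ v ≤ LD A B := by
      rw [hLD]
      calc ∑ v ∈ M, δ v = ∑ v ∈ M.filter (fun v => v ∈ T), δ v := by
            rw [Finset.sum_filter]
            apply Finset.sum_congr rfl
            intro v _
            split_ifs with h
            · rfl
            · exact hTδ v h
        _ ≤ ∑ v ∈ T, δ v := by
            apply Finset.sum_le_sum_of_subset_of_nonneg
            · intro v hv; exact (Finset.mem_filter.1 hv).2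
            · intro v _ _; exact hδ0 v
    have h3 : ∑ v ∈ M, (if v ∈ S6 then (1 : ℝ) else 0) ≤ C4 := by
      rw [← Finset.sum_filter, Finset.sum_const, nsmul_eq_mul, mul_one, hC4]
      have : M.filter (fun v => v ∈ S6) ⊆ S6 := fun v hv => (Finset.mem_filter.1 hv).2
      exact_mod_cast Finset.card_le_card this
    linarith
  refine ⟨hLD0, hLR0, hLRLD, hmKle, H, by linarith, ?_, ?_, ?_⟩
  · rw [hH]; simp only [hwi]; linarith
  · rw [hH]; simp only [hwi] at hHi0 ⊢; linarith
  -- the summary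
  have hne : Nonempty (FinitePlace K ⊕ InfinitePlace K) := by
    obtain ⟨w⟩ : Nonempty (InfinitePlace K) := inferInstance
    exact ⟨Sum.inr w⟩
  have hI : ∀ F : FinitePlace K ⊕ InfinitePlace K → ℝ,
      ∑ i ∈ T.disjSum (Finset.univ : Finset (InfinitePlace K)), F i =
      ∑ v ∈ T, F (Sum.inl v) + ∑ w : InfinitePlace K, F (Sum.inr w) := fun F => by
    rw [Finset.sum_disjSum]
  have hJ : ∀ F : FinitePlace K ⊕ InfinitePlace K → ℝ,
      ∑ i ∈ T.disjSum (∅ : Finset (InfinitePlace K)), F i = ∑ v ∈ T, F (Sum.inl v) := fun F => by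
    rw [Finset.sum_disjSum]; simp
  have hJm : ∀ (Q : FinitePlace K ⊕ InfinitePlace K → Prop),
      (∀ v ∈ T, Q (Sum.inl v)) → ∀ i ∈ T.disjSum (∅ : Finset (InfinitePlace K)), Q i := by
    intro Q hQ i hi
    rcases Finset.mem_disjSum.1 hi with ⟨v, hv, rfl⟩ | ⟨w, hw, rfl⟩
    · exact hQ v hv
    · simp at hw
  have hTC : |∑ v ∈ T, wf v - LD A B| ≤ C₀ := by
    rw [hLD, ← Finset.sum_sub_distrib]
    refine (Finset.abs_sum_le_sum_abs _ _).trans ?_
    refine (Finset.sum_le_sum fun v _ => hwδ v).trans ?_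
    refine (hεsum T).trans ?_
    rw [hC₀]; linarith
  apply kmt_transport (P := fun E => ∀ v : FinitePlace K, dl (fun x : K => v x) A B ≤ E * lq v)
    (T.disjSum (Finset.univ : Finset (InfinitePlace K)))
    (T.disjSum (∅ : Finset (InfinitePlace K))) (Sum.elim wf wi)
    (Sum.elim tf (fun w => 12 * τ w)) (Sum.elim nf (fun _ => 1))
  · exact Finset.disjSum_mono subset_rfl (Finset.empty_subset _)
  · intro i hi
    rcases Finset.mem_disjSum.1 hi with ⟨v, hv, rfl⟩ | ⟨w, hw, rfl⟩
    · exact hw0 v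
    · exact hwi0 w
  · exact hJm _ fun v _ => hn1 v
  · exact hJm _ fun v _ => hint v
  · apply hJm
    intro v _ h
    refine le_trans ?_ (hnle v h)
    exact mul_le_mul_of_nonneg_left (kmt_log_two_le_lq v) (Nat.cast_nonneg _)
  · -- card
    have h1 : T.disjSum (Finset.univ : Finset (InfinitePlace K)) \
        T.disjSum (∅ : Finset (InfinitePlace K)) ⊆
        (Finset.univ : Finset (InfinitePlace K)).map Function.Embedding.inr := by
      intro i hi
      rw [Finset.mem_sdiff] at hi
      rcases Finset.mem_disjSum.1 hi.1 with ⟨v, hv, rfl⟩ | ⟨w, hw, rfl⟩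
      · exact absurd (Finset.mem_disjSum.2 (Or.inl ⟨v, hv, rfl⟩)) hi.2
      · exact Finset.mem_map.2 ⟨w, Finset.mem_univ _, rfl⟩
    have h2 := Finset.card_le_card h1
    rw [Finset.card_map, Finset.card_univ] at h2
    have h3 : ((T.disjSum (Finset.univ : Finset (InfinitePlace K)) \
        T.disjSum (∅ : Finset (InfinitePlace K))).card : ℝ) ≤ C3 := by
      rw [hC3]; exact_mod_cast h2
    rw [hC₀]; linarith
  · -- cardf
    have h0 : (T.disjSum (∅ : Finset (InfinitePlace K))).card = T.card := by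
      rw [Finset.card_disjSum]; simp
    rw [h0, hLR]
    have h1 : ∑ v ∈ T, Real.log 2 ≤
        ∑ v ∈ T, ((if 0 < δ v then lq v else 0) + (if v ∈ S6 then 1 else 0)) := by
      apply Finset.sum_le_sum
      intro v hv
      by_cases h6 : v ∈ S6
      · rw [if_pos h6]
        have : 0 ≤ (if 0 < δ v then lq v else 0) := by
          split_ifs
          · exact (hlq0 v).le
          · exact le_rfl
        linarith
      · have h7 : δ v ≠ 0 := by
          rcases (Finset.mem_filter.1 hv).2 with h | h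
          · exact h
          · exact absurd h h6
        have h8 : 0 < δ v := lt_of_le_of_ne (hδ0 v) (Ne.symm h7)
        rw [if_neg h6, if_pos h8, add_zero]
        exact kmt_log_two_le_lq v
    rw [Finset.sum_const, nsmul_eq_mul, Finset.sum_add_distrib] at h1
    have h3 : ∑ v ∈ T, (if v ∈ S6 then (1 : ℝ) else 0) ≤ C4 := by
      rw [← Finset.sum_filter, Finset.sum_const, nsmul_eq_mul, mul_one, hC4]
      have : T.filter (fun v => v ∈ S6) ⊆ S6 := fun v hv => (Finset.mem_filter.1 hv).2
      exact_mod_cast Finset.card_le_card this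
    linarith
  · -- total
    rw [hI]
    simp only [Sum.elim_inl, Sum.elim_inr]
    have : ∑ v ∈ T, wf v + ∑ w : InfinitePlace K, wi w - H = ∑ v ∈ T, wf v - LD A B := by
      rw [hH]; ring
    rw [this]; exact hTC
  · rw [hJ]; simpa using hTC
  · -- rad
    rw [hJ]
    simp only [Sum.elim_inl]
    rw [hLR]
    have h1 : ∑ v ∈ T, ((if 0 < δ v then lq v else 0) - (if v ∈ S6 then lq v else 0)) ≤
        ∑ v ∈ T, wf v / nf v := by
      apply Finset.sum_le_sum
      intro v hv
      have hnn : 0 ≤ wf v / nf v := div_nonneg (hw0 v) (Nat.cast_nonneg _)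
      by_cases h6 : v ∈ S6
      · rw [if_pos h6]
        have : (if 0 < δ v then lq v else 0) ≤ lq v := by
          split_ifs
          · exact le_rfl
          · exact (hlq0 v).le
        linarith
      · rw [if_neg h6, sub_zero]
        split_ifs with h
        · have h6' := h6
          rw [hS6, not_not] at h6'
          have h2 := hwδ v
          have h3 : ε v = 0 := by simp only [hε]; rw [if_pos h6']
          rw [h3] at h2
          have h4 := abs_nonpos_iff.1 h2
          have h5 : wf v = δ v := by simp only [hδ]; linarith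
          have h7 := hnle v (by rw [h5]; exact h.ne')
          have h8 : (0 : ℝ) < nf v := by exact_mod_cast (hn1 v)
          rw [le_div_iff₀ h8]; linarith
        · exact hnn
    rw [Finset.sum_sub_distrib] at h1
    have h3 : ∑ v ∈ T, (if v ∈ S6 then lq v else 0) ≤ C2 := by
      rw [← Finset.sum_filter]
      apply Finset.sum_le_sum_of_subset_of_nonneg
      · intro v hv; exact (Finset.mem_filter.1 hv).2
      · intro v _ _; exact (hlq0 v).le
    rw [hC₀]; linarith
  · -- multiplicative places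
    have h1 : (T.disjSum (∅ : Finset (InfinitePlace K))).filter
        (fun i => Sum.elim tf (fun w => 12 * τ w) i ≠ 0) ⊆ (M ∪ S6).map Function.Embedding.inl := by
      intro i hi
      rw [Finset.mem_filter] at hi
      rcases Finset.mem_disjSum.1 hi.1 with ⟨v, hv, rfl⟩ | ⟨w, hw, rfl⟩
      · refine Finset.mem_map.2 ⟨v, ?_, rfl⟩
        rw [Finset.mem_union]
        by_cases h6 : v ∈ S6
        · exact Or.inr h6
        · left
          have h6' := h6
          rw [hS6, not_not] at h6'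
          exact (hM v).2 (hmulv v h6'.1 h6'.2 (by simpa using hi.2))
      · simp at hw
    have h2 := Finset.card_le_card h1
    rw [Finset.card_map] at h2
    have h3 := h2.trans (Finset.card_union_le M S6)
    have h4 : (((T.disjSum (∅ : Finset (InfinitePlace K))).filter
        (fun i => Sum.elim tf (fun w => 12 * τ w) i ≠ 0)).card : ℝ) ≤ (M.card : ℝ) + S6.card := by
      exact_mod_cast h3
    rw [hmK, hC₀]; linarith
  · -- main inequality
    intro k hk
    have h12 : 1 ≤ 12 * k := by omega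
    have h1 := hpot (12 * k) h12
    have h2 : ∑ v ∈ S, (wf v * B2 (k * tf v) + 1 / 6 * Real.log (v (dsc A B)) - ε v) ≤
        ∑ v ∈ S, U v (12 * k) := Finset.sum_le_sum fun v _ => hU3 v k hk
    have h3 : ∑ w : InfinitePlace K, (w.mult : ℝ) * (1 / 6 * Real.log (w (dsc A B)) +
        max 0 (Real.log (w j)) * B2 (((12 * k : ℕ) : ℝ) * τ w) - CX) ≤
        ∑ w : InfinitePlace K, (w.mult : ℝ) * Ui w (12 * k) := by
      apply Finset.sum_le_sum
      intro w _
      exact mul_le_mul_of_nonneg_left (hUi3 w (12 * k) h12) (Nat.cast_nonneg _)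
    have h4 := kmt_prod hD S hSD
    have h5 : ∑ v ∈ S, (wf v * B2 (k * tf v) + 1 / 6 * Real.log (v (dsc A B)) - ε v) =
        ∑ v ∈ S, wf v * B2 (k * tf v) + 1 / 6 * ∑ v ∈ S, Real.log (v (dsc A B)) -
        ∑ v ∈ S, ε v := by
      rw [Finset.sum_sub_distrib, Finset.sum_add_distrib, Finset.mul_sum]
    have h6 : ∑ w : InfinitePlace K, (w.mult : ℝ) * (1 / 6 * Real.log (w (dsc A B)) +
        max 0 (Real.log (w j)) * B2 (((12 * k : ℕ) : ℝ) * τ w) - CX) =
        1 / 6 * ∑ w : InfinitePlace K, (w.mult : ℝ) * Real.log (w (dsc A B)) +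
        ∑ w : InfinitePlace K, wi w * B2 (k * (12 * τ w)) - d * CX := by
      have e1 : ∀ w : InfinitePlace K, (w.mult : ℝ) * (1 / 6 * Real.log (w (dsc A B)) +
          max 0 (Real.log (w j)) * B2 (((12 * k : ℕ) : ℝ) * τ w) - CX) =
          1 / 6 * ((w.mult : ℝ) * Real.log (w (dsc A B))) + wi w * B2 (k * (12 * τ w)) -
            (w.mult : ℝ) * CX := by
        intro w
        have : (((12 * k : ℕ) : ℝ) * τ w) = k * (12 * τ w) := by push_cast; ring
        rw [this]; simp only [hwi]; ring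
      rw [Finset.sum_congr rfl fun w _ => e1 w, Finset.sum_sub_distrib, Finset.sum_add_distrib,
        ← Finset.mul_sum, ← Finset.sum_mul]
      have e2 : ∑ w : InfinitePlace K, (w.mult : ℝ) = d := by
        rw [hd, ← InfinitePlace.sum_mult_eq]; push_cast; rfl
      rw [e2]
    have h7 : ∑ v ∈ S, wf v * B2 (k * tf v) = ∑ v ∈ T, wf v * B2 (k * tf v) := by
      symm
      apply Finset.sum_subset hTS
      intro v hv hv'
      rw [hTw v hv hv', zero_mul]
    have h8 := hεsum S
    rw [hI]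
    simp only [Sum.elim_inl, Sum.elim_inr]
    have h9 : (((12 * k : ℕ) : ℝ)) ^ 2 * e = 144 * (k : ℝ) ^ 2 * e := by push_cast; ring
    rw [h9, ← hd] at h1
    rw [h5, h7] at h2
    rw [h6] at h3
    have h10 : (0 : ℝ) ≤ ∑ v ∈ S, ε v := Finset.sum_nonneg fun v _ => hε0 v
    rw [hC₀]
    linarith
  · -- exponents
    intro E hE
    apply hJm
    intro v hv
    simp only [Sum.elim_inl]
    have hE0 : 0 ≤ E := by
      have h1 := hE v
      have h2 := hδ0 v
      simp only [hδ] at h2
      have h3 : 0 ≤ E * lq v := h2.trans h1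
      exact nonneg_of_mul_nonneg_left h3 (hlq0 v)
    by_cases hwv : wf v = 0
    · rw [(hwz v hwv).1]
      rw [hC₀]; push_cast; linarith
    · have h1 := hnle v hwv
      have h2 := (abs_le.1 (hwδ v)).2
      have h3 := hE v
      have h4 : ε v ≤ C1 := by
        have := hεsum {v}
        simpa using this
      have h5 : C1 ≤ C5 * lq v := by
        rw [hC5, div_mul_eq_mul_div, le_div_iff₀ hl2]
        exact mul_le_mul_of_nonneg_left (kmt_log_two_le_lq v) hC10
      have h6 : (nf v : ℝ) * lq v ≤ (E + C5) * lq v := by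
        rw [add_mul]; linarith
      have h7 := le_of_mul_le_mul_right h6 (hlq0 v)
      rw [hC₀]; linarith

end Pool.Agent.Helper42.LK
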