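import Pool.Agent.Helper42.LK.Defs

open Filter Topology NumberField

namespace Pool.Agent.Helper42.LK

open Pool.Agent.Helper42.LS

lemma cfa_mk_pos {κ : ℂ} (hκ : κ ≠ 0) (s : ℂ) : 0 < mk κ s :=
  lt_of_lt_of_le (norm_pos_iff.2 hκ) (le_max_right _ _)

lemma cfa_fk {κ : ℂ} (hκ : κ ≠ 0) (s : ℂ) : fk κ s = -(1 / 2) * Real.log (min 1 (mk κ s)) := by
  have h0 := cfa_mk_pos hκ s
  have h : fk κ s = max 0 (-Real.log (mk κ s)) / 2 := rfl
  rw [h]
  by_cases h1 : mk κ s ≤ 1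
  · rw [min_eq_right h1, max_eq_right (by have := Real.log_nonpos h0.le h1; linarith)]
    ring
  · push Not at h1
    rw [min_eq_left h1.le, max_eq_left (by have := Real.log_nonneg h1.le; linarith)]
    simp

lemma cfa_close {C a b : ℝ} (hC : 1 ≤ C) (ha : 0 < a) (hb : 0 < b) (h1 : a ≤ C * b)
    (h2 : b ≤ C * a) : |Real.log b - Real.log a| ≤ Real.log C := by
  have hC0 : 0 < C := by linarith
  have h3 := Real.log_le_log ha h1
  have h4 := Real.log_le_log hb h2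
  rw [Real.log_mul hC0.ne' hb.ne'] at h3
  rw [Real.log_mul hC0.ne' ha.ne'] at h4
  rw [abs_le]
  constructor <;> linarith

lemma cfa_main {Ca Cb : ℝ} (hCa : 1 ≤ Ca) (hCb : 1 ≤ Cb)
    (ha : ∀ κ s₁ s₂ x y : ℂ, κ ≠ 0 → ‖κ‖ ≤ 1 / 100 → s₁ ≠ s₂ →
      (x + y) * (s₁ - s₂) ^ 2 =
        2 * (s₁ + s₂) * (s₁ * s₂ + κ * (4 + κ)) + 4 * (4 + 2 * κ) * (s₁ * s₂) →
      x * y * (s₁ - s₂) ^ 2 = (s₁ * s₂ - κ * (4 + κ)) ^ 2 →
      mk κ s₂ ≤ mk κ s₁ → mk κ s₁ ≤ 1 / 4 → mk κ y ≤ mk κ x →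
      mk κ s₂ / mk κ s₁ ≤ Ca * min 1 (mk κ x) ∧ min 1 (mk κ x) ≤ Ca * (mk κ s₂ / mk κ s₁) ∧
      (max (mk κ s₁ * mk κ s₂) ‖κ‖) ^ 2 / (mk κ s₁ * mk κ s₂) ≤ Ca * min 1 (mk κ y) ∧
      min 1 (mk κ y) ≤ Ca * ((max (mk κ s₁ * mk κ s₂) ‖κ‖) ^ 2 / (mk κ s₁ * mk κ s₂)))
    (hb : ∀ κ s₁ s₂ x y : ℂ, κ ≠ 0 → ‖κ‖ ≤ 1 / 100 → s₁ ≠ s₂ →
      (x + y) * (s₁ - s₂) ^ 2 =
        2 * (s₁ + s₂) * (s₁ * s₂ + κ * (4 + κ)) + 4 * (4 + 2 * κ) * (s₁ * s₂) →
      x * y * (s₁ - s₂) ^ 2 = (s₁ * s₂ - κ * (4 + κ)) ^ 2 →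
      1 / 4 < mk κ s₁ →
      min 1 (mk κ s₂) ≤ Cb * min 1 (mk κ x) ∧ min 1 (mk κ x) ≤ Cb * min 1 (mk κ s₂))
    {κ s₁ s₂ x y : ℂ} (hκ : κ ≠ 0) (hκ1 : ‖κ‖ ≤ 1 / 100) (hne : s₁ ≠ s₂)
    (hsum : (x + y) * (s₁ - s₂) ^ 2 =
        2 * (s₁ + s₂) * (s₁ * s₂ + κ * (4 + κ)) + 4 * (4 + 2 * κ) * (s₁ * s₂))
    (hprod : x * y * (s₁ - s₂) ^ 2 = (s₁ * s₂ - κ * (4 + κ)) ^ 2)
    (hM : mk κ s₂ ≤ mk κ s₁) (hm : mk κ y ≤ mk κ x) :
    |fk κ x - abs (fk κ s₁ - fk κ s₂)| ≤ Real.log Ca + Real.log Cb + Real.log 2 ∧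
    |fk κ y - min (fk κ s₁ + fk κ s₂) (-Real.log ‖κ‖ - (fk κ s₁ + fk κ s₂))| ≤
      Real.log Ca + Real.log Cb + Real.log 2 := by
  have hM1 := cfa_mk_pos hκ s₁
  have hM2 := cfa_mk_pos hκ s₂
  have hmx := cfa_mk_pos hκ x
  have hmy := cfa_mk_pos hκ y
  have hκ0 : 0 < ‖κ‖ := norm_pos_iff.2 hκ
  have hlCa : 0 ≤ Real.log Ca := Real.log_nonneg hCa
  have hlCb : 0 ≤ Real.log Cb := Real.log_nonneg hCb
  have hl2 : 0 ≤ Real.log 2 := Real.log_nonneg (by norm_num)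
  by_cases hc : mk κ s₁ ≤ 1 / 4
  · obtain ⟨h1, h2, h3, h4⟩ := ha κ s₁ s₂ x y hκ hκ1 hne hsum hprod hM hc hm
    have hf1 : fk κ s₁ = -(1 / 2) * Real.log (mk κ s₁) := by
      rw [cfa_fk hκ, min_eq_right (by linarith)]
    have hf2 : fk κ s₂ = -(1 / 2) * Real.log (mk κ s₂) := by
      rw [cfa_fk hκ, min_eq_right (by linarith)]
    have hlog := Real.log_le_log hM2 hM
    have h5 := cfa_close hCa (by positivity) (by positivity) h1 h2
    rw [Real.log_div hM2.ne' hM1.ne'] at h5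
    have hQ : 0 < max (mk κ s₁ * mk κ s₂) ‖κ‖ := lt_of_lt_of_le hκ0 (le_max_right _ _)
    have h6 := cfa_close hCa (by positivity) (by positivity) h3 h4
    rw [Real.log_div (by positivity) (by positivity), Real.log_pow,
      Real.log_mul hM1.ne' hM2.ne'] at h6
    push_cast at h6
    constructor
    · rw [cfa_fk hκ x, hf1, hf2]
      have e1 : |(-(1 / 2) * Real.log (mk κ s₁) - -(1 / 2) * Real.log (mk κ s₂))| =
          1 / 2 * (Real.log (mk κ s₁) - Real.log (mk κ s₂)) := by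
        rw [abs_of_nonpos (by linarith)]
        ring
      have e2 : abs (-(1 / 2) * Real.log (mk κ s₁) - -(1 / 2) * Real.log (mk κ s₂)) =
          1 / 2 * (Real.log (mk κ s₁) - Real.log (mk κ s₂)) := e1
      rw [e2]
      rw [abs_le] at h5 ⊢
      constructor <;> linarith
    · rw [cfa_fk hκ y, hf1, hf2]
      by_cases hq : ‖κ‖ ≤ mk κ s₁ * mk κ s₂
      · rw [max_eq_left hq, Real.log_mul hM1.ne' hM2.ne'] at h6
        have h7 := Real.log_le_log hκ0 hq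
        rw [Real.log_mul hM1.ne' hM2.ne'] at h7
        have h8 : -(1 / 2) * Real.log (mk κ s₁) + -(1 / 2) * Real.log (mk κ s₂) ≤
          -Real.log ‖κ‖ - (-(1 / 2) * Real.log (mk κ s₁) + -(1 / 2) * Real.log (mk κ s₂)) := by
          linarith
        rw [min_eq_left h8]
        rw [abs_le] at h6 ⊢
        constructor <;> linarith
      · push Not at hq
        rw [max_eq_right hq.le] at h6
        have h7 := Real.log_le_log (by positivity) hq.le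
        rw [Real.log_mul hM1.ne' hM2.ne'] at h7
        have h8 : -Real.log ‖κ‖ - (-(1 / 2) * Real.log (mk κ s₁) +
            -(1 / 2) * Real.log (mk κ s₂)) ≤
            -(1 / 2) * Real.log (mk κ s₁) + -(1 / 2) * Real.log (mk κ s₂) := by
          linarith
        rw [min_eq_right h8]
        rw [abs_le] at h6 ⊢
        constructor <;> linarith
  · push Not at hc
    obtain ⟨h1, h2⟩ := hb κ s₁ s₂ x y hκ hκ1 hne hsum hprod hc
    obtain ⟨h3, h4⟩ := hb κ s₁ s₂ y x hκ hκ1 hne (by rw [add_comm y x]; exact hsum)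
      (by rw [mul_comm y x]; exact hprod) hc
    have h5 := cfa_close hCb (by positivity) (by positivity) h1 h2
    have h6 := cfa_close hCb (by positivity) (by positivity) h3 h4
    have hf1a : 0 ≤ fk κ s₁ := by
      rw [fk]; exact div_nonneg (le_max_left _ _) (by norm_num)
    have hf1b : fk κ s₁ ≤ Real.log 2 := by
      rw [cfa_fk hκ]
      have h7 : (1 / 4 : ℝ) ≤ min 1 (mk κ s₁) := le_min (by norm_num) hc.le
      have h8 := Real.log_le_log (by norm_num) h7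
      have h9 : Real.log (1 / 4) = -(2 * Real.log 2) := by
        rw [one_div, Real.log_inv, show (4 : ℝ) = 2 ^ 2 by norm_num, Real.log_pow]
        norm_num
      rw [h9] at h8
      linarith
    have hf2a : 0 ≤ fk κ s₂ := by
      rw [fk]; exact div_nonneg (le_max_left _ _) (by norm_num)
    have hf2b : 2 * fk κ s₂ ≤ -Real.log ‖κ‖ := by
      have h7 : Real.log ‖κ‖ ≤ Real.log (mk κ s₂) :=
        Real.log_le_log hκ0 (le_max_right _ _)
      have h8 : Real.log ‖κ‖ ≤ 0 := Real.log_nonpos hκ0.le (by linarith)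
      have h9 : fk κ s₂ = max 0 (-Real.log (mk κ s₂)) / 2 := rfl
      rw [h9]
      have : max 0 (-Real.log (mk κ s₂)) ≤ -Real.log ‖κ‖ := max_le (by linarith) (by linarith)
      linarith
    have hx : |fk κ x - fk κ s₂| ≤ Real.log Cb := by
      rw [cfa_fk hκ x, cfa_fk hκ s₂]
      rw [abs_le] at h5 ⊢
      constructor <;> linarith
    have hy : |fk κ y - fk κ s₂| ≤ Real.log Cb := by
      rw [cfa_fk hκ y, cfa_fk hκ s₂]
      rw [abs_le] at h6 ⊢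
      constructor <;> linarith
    constructor
    · have h7 : |(abs (fk κ s₁ - fk κ s₂)) - fk κ s₂| ≤ Real.log 2 := by
        rcases le_total (fk κ s₁) (fk κ s₂) with h | h
        · rw [abs_of_nonpos (sub_nonpos.2 h)]
          rw [abs_le]; constructor <;> linarith
        · rw [abs_of_nonneg (sub_nonneg.2 h)]
          rw [abs_le]; constructor <;> linarith
      rw [abs_le] at hx h7 ⊢
      constructor <;> linarith
    · have h7 : |min (fk κ s₁ + fk κ s₂) (-Real.log ‖κ‖ - (fk κ s₁ + fk κ s₂)) - fk κ s₂| ≤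
          Real.log 2 := by
        rw [abs_le]
        constructor
        · have : fk κ s₂ - Real.log 2 ≤
              min (fk κ s₁ + fk κ s₂) (-Real.log ‖κ‖ - (fk κ s₁ + fk κ s₂)) :=
            le_min (by linarith) (by linarith)
          linarith
        · have := min_le_left (fk κ s₁ + fk κ s₂) (-Real.log ‖κ‖ - (fk κ s₁ + fk κ s₂))
          linarith
      rw [abs_le] at hy h7 ⊢
      constructor <;> linarith

theorem st_CFA (ha : ST_CFAa) (hb : ST_CFAb) : ST_CFA := by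
  obtain ⟨Ca, hCa, ha⟩ := ha
  obtain ⟨Cb, hCb, hb⟩ := hb
  refine ⟨Real.log Ca + Real.log Cb + Real.log 2, ?_⟩
  intro κ s₁ s₂ x y hκ hκ1 hne hsum hprod
  have hsum' : (y + x) * (s₁ - s₂) ^ 2 =
      2 * (s₁ + s₂) * (s₁ * s₂ + κ * (4 + κ)) + 4 * (4 + 2 * κ) * (s₁ * s₂) := by
    rw [add_comm y x]; exact hsum
  have hprod' : y * x * (s₁ - s₂) ^ 2 = (s₁ * s₂ - κ * (4 + κ)) ^ 2 := by
    rw [mul_comm y x]; exact hprod
  rcases le_total (mk κ s₂) (mk κ s₁) with hM | hM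
  · rcases le_total (mk κ y) (mk κ x) with hm | hm
    · exact Or.inl (cfa_main hCa hCb ha hb hκ hκ1 hne hsum hprod hM hm)
    · exact Or.inr (cfa_main hCa hCb ha hb hκ hκ1 hne hsum' hprod' hM hm)
  · have hs : ∀ x y : ℂ, (x + y) * (s₁ - s₂) ^ 2 =
        2 * (s₁ + s₂) * (s₁ * s₂ + κ * (4 + κ)) + 4 * (4 + 2 * κ) * (s₁ * s₂) →
        (x + y) * (s₂ - s₁) ^ 2 =
        2 * (s₂ + s₁) * (s₂ * s₁ + κ * (4 + κ)) + 4 * (4 + 2 * κ) * (s₂ * s₁) := by
      intro x y h; linear_combination h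
    have hp : ∀ x y : ℂ, x * y * (s₁ - s₂) ^ 2 = (s₁ * s₂ - κ * (4 + κ)) ^ 2 →
        x * y * (s₂ - s₁) ^ 2 = (s₂ * s₁ - κ * (4 + κ)) ^ 2 := by
      intro x y h; linear_combination h
    have ec : abs (fk κ s₁ - fk κ s₂) = abs (fk κ s₂ - fk κ s₁) := abs_sub_comm _ _
    rw [ec, add_comm (fk κ s₁) (fk κ s₂)]
    rcases le_total (mk κ y) (mk κ x) with hm | hm
    · exact Or.inl (cfa_main hCa hCb ha hb hκ hκ1 hne.symm (hs x y hsum) (hp x y hprod) hM hm)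
    · exact Or.inr (cfa_main hCa hCb ha hb hκ hκ1 hne.symm (hs y x hsum') (hp y x hprod') hM hm)

end Pool.Agent.Helper42.LK
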