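import Pool.Agent.Helper42.LK.KFin

open Filter Topology NumberField

namespace Pool.Agent.Helper42.LK

open Pool.Agent.Helper42.LS

/-- KR2 : Szpiro ratio theorem -/
def ST_KR2 : Prop := ∀ (K : Type) [Field K] [NumberField K], ∃ c : ℝ, 0 < c ∧
  ∀ A B : K, dsc A B ≠ 0 → ∀ (x y : ℕ → K) (e : ℝ), GSeq (0 : K) A B x y → IsCanK x e →
  c * (1 + HK A B) * ((1 + LR A B) / (1 + LD A B)) ^ 5 ≤ e

/-- KR3 : few multiplicative places -/
def ST_KR3 : Prop := ∀ (K : Type) [Field K] [NumberField K], ∃ c : ℝ, 0 < c ∧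
  ∀ A B : K, dsc A B ≠ 0 → ∀ (x y : ℕ → K) (e : ℝ), GSeq (0 : K) A B x y → IsCanK x e →
  c * (1 + HK A B) * (1 + mK A B : ℝ) ^ (-(8 / 3 : ℝ)) ≤ e

theorem st_KR2 (hMT : ST_KMT) (hSM : ST_KSM) (hCA : ST_CA) (hCK : ST_CK) : ST_KR2 := by
  intro K _ _
  obtain ⟨C₀, hC₀, hMT⟩ := hMT K
  obtain ⟨cA, hcA, hA⟩ := kfin_CA hCA
  have hl2 : 0 < Real.log 2 := Real.log_pos (by norm_num)
  -- threshold for the radical
  set L₀ : ℝ := 2 * (C₀ / cA) + 2 * C₀ + 2 with hL₀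
  have hCcA : 0 ≤ C₀ / cA := by positivity
  have hL₀1 : 2 ≤ L₀ := by rw [hL₀]; linarith
  -- bound for the number of places
  set m : ℝ := (L₀ + C₀) / Real.log 2 + C₀ + 1 with hm
  have hm0 : 0 ≤ (L₀ + C₀) / Real.log 2 := by positivity
  have hm1 : 1 ≤ m := by rw [hm]; linarith
  set H₀ : ℝ := 2 * (640 * C₀ * m + 8 * C₀ + 8) with hH₀
  have hmC : 0 ≤ 640 * C₀ * m := by positivity
  have hH₀0 : 0 < H₀ := by rw [hH₀]; linarith
  obtain ⟨cs, hcs, hsmall⟩ := hSM K H₀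
  obtain ⟨mm, hmm⟩ : ∃ mm : ℝ, mm = min (cs / (1 + H₀)) (min (1 / (m ^ 3 * 41472000) / 5)
    (cA / (5 * 2 ^ 5 * 2 ^ 5 * 4 ^ 5))) := ⟨_, rfl⟩
  have hmm0 : 0 < mm := by
    rw [hmm]
    exact lt_min (by positivity) (lt_min (by positivity) (by positivity))
  have hmm1 : mm ≤ cs / (1 + H₀) := by rw [hmm]; exact min_le_left _ _
  have hmm2 : mm ≤ 1 / (m ^ 3 * 41472000) / 5 := by
    rw [hmm]; exact (min_le_right _ _).trans (min_le_left _ _)
  have hmm3 : mm ≤ cA / (5 * 2 ^ 5 * 2 ^ 5 * 4 ^ 5) := by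
    rw [hmm]; exact (min_le_right _ _).trans (min_le_right _ _)
  refine ⟨mm, hmm0, ?_⟩
  intro A B hD x y e hg he
  obtain ⟨hLD0, hLR0, hLRD, -, H, hLDH, hHK, hHK2, V, P, w, t, n, hM, -⟩ := hMT A B hD x y e hg he
  have hq0 : 0 ≤ (1 + LR A B) / (1 + LD A B) := by positivity
  have hq1 : (1 + LR A B) / (1 + LD A B) ≤ 1 := by
    rw [div_le_one (by linarith)]; linarith
  have hq5 : ((1 + LR A B) / (1 + LD A B)) ^ 5 ≤ 1 := pow_le_one₀ hq0 hq1
  have hHK0 : 0 ≤ HK A B := by linarith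
  by_cases hHs : HK A B ≤ H₀
  · have h1 := hsmall A B hD hHs x y e hg he
    calc mm * (1 + HK A B) * ((1 + LR A B) / (1 + LD A B)) ^ 5
        ≤ cs / (1 + H₀) * (1 + H₀) * 1 := by gcongr
      _ = cs := by field_simp
      _ ≤ e := h1
  push Not at hHs
  set W := ∑ v ∈ V, w v with hW
  have htot := abs_le.1 hM.total
  rw [← hW] at htot
  have htotf := abs_le.1 hM.totalf
  have hHbig : H₀ / 2 < H := by linarith
  have hWH : H / 2 ≤ W := by linarith
  have hWH2 : W ≤ 2 * H := by linarith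
  have hWpos : 0 < W := by linarith
  have hHK5 : 1 + HK A B ≤ 5 * W := by linarith
  have hWbig : 320 * C₀ * m ≤ W := by linarith
  -- reduction to few places
  have hfew : ∀ T : Finset ℕ, T ⊆ V → (T.card : ℝ) ≤ m → W / 2 ≤ ∑ v ∈ T, w v →
      mm * (1 + HK A B) * ((1 + LR A B) / (1 + LD A B)) ^ 5 ≤ e := by
    intro T hT hTc hTw
    have h1 := kfin_few hCK hM T hT m hm1 hTc hWpos hTw hWbig
    rw [← hW] at h1
    calc mm * (1 + HK A B) * ((1 + LR A B) / (1 + LD A B)) ^ 5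
        ≤ 1 / (m ^ 3 * 41472000) / 5 * (5 * W) * 1 := by gcongr
      _ = W / (m ^ 3 * 41472000) := by ring
      _ ≤ e := h1
  have hsplit : ∑ v ∈ V \ P, w v + ∑ v ∈ P, w v = W := Finset.sum_sdiff hM.sub
  by_cases hcase : W / 2 ≤ ∑ v ∈ V \ P, w v
  · apply hfew (V \ P) Finset.sdiff_subset _ hcase
    have := hM.card
    rw [hm]; linarith
  push Not at hcase
  have hWf : W / 2 ≤ ∑ v ∈ P, w v := by linarith
  by_cases hLs : LR A B < L₀
  · apply hfew P hM.sub _ hWf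
    have h1 := hM.cardf
    have h2 : (P.card : ℝ) ≤ (L₀ + C₀) / Real.log 2 := by
      rw [le_div_iff₀ hl2]; linarith
    rw [hm]; linarith
  push Not at hLs
  -- many primes
  have hLRpos : 0 < LR A B := by linarith
  have hLRC : 2 * C₀ ≤ LR A B := by linarith
  have hR : LR A B / 2 ≤ ∑ v ∈ P, w v / n v := by
    have := hM.rad
    linarith
  have h5 := hA hC₀ hM (LR A B / 2) (by positivity) hR (by
    have h6 : C₀ / cA ≤ LR A B / 2 := by linarith
    rw [div_le_iff₀ hcA] at h6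
    linarith)
  rw [← hW] at h5
  have hLD4 : W ≤ 4 * LD A B := by linarith
  have hLDpos : 0 < LD A B := by linarith
  have hratio : (1 + LR A B) / (1 + LD A B) ≤ 2 * LR A B / LD A B := by
    rw [div_le_div_iff₀ (by linarith) hLDpos]
    nlinarith
  calc mm * (1 + HK A B) * ((1 + LR A B) / (1 + LD A B)) ^ 5
      ≤ cA / (5 * 2 ^ 5 * 2 ^ 5 * 4 ^ 5) * (5 * W) * (2 * LR A B / LD A B) ^ 5 := by gcongr
    _ ≤ cA / (5 * 2 ^ 5 * 2 ^ 5 * 4 ^ 5) * (5 * W) * (2 * LR A B / (W / 4)) ^ 5 := by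
        have h7 : W / 4 ≤ LD A B := by linarith
        gcongr
    _ = cA * (LR A B / 2) ^ 5 / W ^ 4 := by field_simp
    _ ≤ e := h5

theorem st_KR3 (hMT : ST_KMT) (hSM : ST_KSM) (hCB : ST_CB) : ST_KR3 := by
  intro K _ _
  obtain ⟨C₀, hC₀, hMT⟩ := hMT K
  obtain ⟨cB, hcB, hB⟩ := kfin_CB hCB
  have hl2 : 0 < Real.log 2 := Real.log_pos (by norm_num)
  have hl2h : 1 / 2 < Real.log 2 := by have := Real.log_two_gt_d9; linarith
  -- D bounds the number of non-multiplicative weights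
  set D : ℝ := 2 * C₀ + 1 with hDd
  have hD1 : 1 ≤ D := by rw [hDd]; linarith
  have hD0 : 0 < D := by linarith
  -- threshold
  set a : ℝ := (1 / (40 * D) : ℝ) ^ (2 / 3 : ℝ) with ha
  have ha0 : 0 < a := by positivity
  set X : ℝ := (C₀ / (cB * a)) ^ 3 with hX
  have hX0 : 0 ≤ X := by positivity
  set H₀ : ℝ := 96 * C₀ + 24 * C₀ + 24 + 4 * X with hH₀
  have hH₀0 : 0 < H₀ := by positivity
  obtain ⟨cs, hcs, hsmall⟩ := hSM K H₀
  obtain ⟨mm, hmm⟩ : ∃ mm : ℝ, mm = min (cs / (1 + H₀)) (min (1 / 34560)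
    (cB * (1 / (4 * D) : ℝ) ^ (8 / 3 : ℝ) / 5)) := ⟨_, rfl⟩
  have hmm0 : 0 < mm := by
    rw [hmm]
    exact lt_min (by positivity) (lt_min (by positivity) (by positivity))
  have hmm1 : mm ≤ cs / (1 + H₀) := by rw [hmm]; exact min_le_left _ _
  have hmm2 : mm ≤ 1 / 34560 := by
    rw [hmm]; exact (min_le_right _ _).trans (min_le_left _ _)
  have hmm3 : mm ≤ cB * (1 / (4 * D) : ℝ) ^ (8 / 3 : ℝ) / 5 := by
    rw [hmm]; exact (min_le_right _ _).trans (min_le_right _ _)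
  refine ⟨mm, hmm0, ?_⟩
  intro A B hDs x y e hg he
  obtain ⟨hLD0, hLR0, hLRD, hmle, H, hLDH, hHK, hHK2, V, P, w, t, n, hM, -⟩ :=
    hMT A B hDs x y e hg he
  set s : ℝ := 1 + mK A B with hs
  have hmK0 : (0 : ℝ) ≤ mK A B := Nat.cast_nonneg _
  have hs1 : 1 ≤ s := by rw [hs]; linarith
  have hs0 : 0 < s := by linarith
  have hsp1 : s ^ (-(8 / 3 : ℝ)) ≤ 1 := by
    have := Real.rpow_le_rpow_of_exponent_le hs1 (show (-(8 / 3 : ℝ)) ≤ 0 by norm_num)
    rwa [Real.rpow_zero] at this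
  have hHK0 : 0 ≤ HK A B := by linarith
  by_cases hHs : HK A B ≤ H₀
  · have h1 := hsmall A B hDs hHs x y e hg he
    calc mm * (1 + HK A B) * s ^ (-(8 / 3 : ℝ)) ≤ cs / (1 + H₀) * (1 + H₀) * 1 := by gcongr
      _ = cs := by field_simp
      _ ≤ e := h1
  push Not at hHs
  set W := ∑ v ∈ V, w v with hW
  have htot := abs_le.1 hM.total
  rw [← hW] at htot
  have hHbig : H₀ / 2 < H := by linarith
  have hWH : H / 2 ≤ W := by linarith
  have hWH2 : W ≤ 2 * H := by linarith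
  have hWpos : 0 < W := by linarith
  have hHK5 : 1 + HK A B ≤ 5 * W := by linarith
  have hsub := hM.sub
  have h1 := hM.nonneg
  -- additive part
  set Z := P.filter (fun v : ℕ => t v = 0) with hZ
  have hZV : Z ⊆ V := (Finset.filter_subset _ _).trans hsub
  have hsplit : ∑ v ∈ V \ Z, w v + ∑ v ∈ Z, w v = W := Finset.sum_sdiff hZV
  by_cases hcase : W / 2 ≤ ∑ v ∈ Z, w v
  · -- additive primes dominate
    have h5 := hM.main 1 le_rfl
    have hb2 : ∀ r : ℝ, -(1 / 12) ≤ B2 r := by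
      intro r
      unfold B2
      nlinarith [sq_nonneg (Int.fract r - 1 / 2)]
    have h6 : W / 24 ≤ ∑ v ∈ V, w v * B2 (((1 : ℕ) : ℝ) * t v) := by
      rw [← Finset.sum_sdiff hZV]
      have h7 : ∑ v ∈ Z, w v * B2 (((1 : ℕ) : ℝ) * t v) = (∑ v ∈ Z, w v) / 6 := by
        rw [Finset.sum_div]
        apply Finset.sum_congr rfl
        intro v hv
        rw [hZ, Finset.mem_filter] at hv
        have hB0 : B2 0 = 1 / 6 := by simp [B2]
        rw [hv.2, mul_zero, hB0]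
        ring
      have h8 : -(∑ v ∈ V \ Z, w v) / 12 ≤ ∑ v ∈ V \ Z, w v * B2 (((1 : ℕ) : ℝ) * t v) := by
        rw [neg_div, Finset.sum_div, ← Finset.sum_neg_distrib]
        apply Finset.sum_le_sum
        intro v hv
        have h9 := h1 v (Finset.mem_sdiff.1 hv).1
        have h10 := hb2 (((1 : ℕ) : ℝ) * t v)
        nlinarith
      rw [h7]
      linarith
    have h7 : W / 48 ≤ 144 * e := by
      have : (144 * ((1 : ℕ) : ℝ) ^ 2 * e) = 144 * e := by push_cast; ring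
      rw [this] at h5
      have h8 : W / 24 ≤ 144 * e + C₀ := h6.trans (sub_le_iff_le_add.1 h5)
      have h9 : C₀ ≤ W / 48 := by
        have h10 : 120 * C₀ ≤ H₀ := by rw [hH₀]; linarith
        have h11 : 120 * C₀ + 24 ≤ H₀ := by rw [hH₀]; linarith
        have h12 : H₀ / 4 ≤ W := by linarith
        have h13 : 96 * C₀ + 24 * C₀ + 24 + 4 * X = H₀ := hH₀.symm
        by_contra hcon
        push Not at hcon
        have h14 : 192 * C₀ ≤ H₀ ∨ True := Or.inr trivial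
        nlinarith
      linarith
    calc mm * (1 + HK A B) * s ^ (-(8 / 3 : ℝ)) ≤ 1 / 34560 * (5 * W) * 1 := by gcongr
      _ ≤ e := by linarith
  push Not at hcase
  have hU : W / 2 ≤ ∑ v ∈ V \ Z, w v := by linarith
  -- cardinality
  have hcard : ((V \ Z).card : ℝ) ≤ D * s := by
    have h5 : V \ Z ⊆ (V \ P) ∪ P.filter (fun v : ℕ => t v ≠ 0) := by
      intro v hv
      rw [Finset.mem_sdiff] at hv
      rw [Finset.mem_union]
      by_cases h6 : v ∈ P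
      · right
        rw [Finset.mem_filter]
        exact ⟨h6, fun h7 => hv.2 (Finset.mem_filter.2 ⟨h6, h7⟩)⟩
      · left; exact Finset.mem_sdiff.2 ⟨hv.1, h6⟩
    have h6 := (Finset.card_le_card h5).trans (Finset.card_union_le _ _)
    have h7 : ((V \ Z).card : ℝ) ≤ ((V \ P).card : ℝ) +
        ((P.filter (fun v : ℕ => t v ≠ 0)).card : ℝ) := by exact_mod_cast h6
    have h8 := hM.card
    have h9 := hM.mul
    have h10 : 0 ≤ C₀ * (mK A B : ℝ) := by positivity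
    rw [hs, hDd]
    nlinarith
  have hρ : (1 / (4 * (D * s))) * W ^ 2 ≤ ∑ v ∈ V, w v ^ 2 := by
    have h5 : (∑ v ∈ V \ Z, w v) ^ 2 ≤ (V \ Z).card * ∑ v ∈ V \ Z, w v ^ 2 :=
      sq_sum_le_card_mul_sum_sq
    have h6 : ∑ v ∈ V \ Z, w v ^ 2 ≤ ∑ v ∈ V, w v ^ 2 :=
      Finset.sum_le_sum_of_subset_of_nonneg Finset.sdiff_subset (fun _ _ _ => sq_nonneg _)
    have h7 : (W / 2) ^ 2 ≤ (∑ v ∈ V \ Z, w v) ^ 2 := pow_le_pow_left₀ (by positivity) hU 2
    have h8 : 0 ≤ ∑ v ∈ V \ Z, w v ^ 2 := Finset.sum_nonneg (fun _ _ => sq_nonneg _)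
    have h9 : W ^ 2 / 4 ≤ D * s * ∑ v ∈ V, w v ^ 2 := by
      calc W ^ 2 / 4 = (W / 2) ^ 2 := by ring
        _ ≤ (V \ Z).card * ∑ v ∈ V \ Z, w v ^ 2 := h7.trans h5
        _ ≤ (D * s) * ∑ v ∈ V, w v ^ 2 := by gcongr
    rw [div_mul_eq_mul_div, one_mul, div_le_iff₀ (by positivity)]
    linarith
  -- s ≤ 10 W
  have hsW : s ≤ 10 * W := by
    have h6 : (mK A B : ℝ) * (1 / 2) ≤ (mK A B : ℝ) * Real.log 2 := by gcongr
    rw [hs]
    linarith
  have h5 := hB hC₀ hM (1 / (4 * (D * s))) (by positivity) (by rw [← hW]; exact hρ)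
    (by rw [← hW]; exact hWpos) (by
      rw [← hW]
      have h6 : (1 / (40 * D * W)) ^ (2 / 3 : ℝ) ≤ (1 / (4 * (D * s))) ^ (2 / 3 : ℝ) := by
        apply Real.rpow_le_rpow (by positivity) _ (by norm_num)
        apply one_div_le_one_div_of_le (by positivity)
        have : D * s ≤ D * (10 * W) := mul_le_mul_of_nonneg_left hsW hD0.le
        linarith
      have h7 : (1 / (40 * D * W)) ^ (2 / 3 : ℝ) * W = a * W ^ (1 / 3 : ℝ) := by
        have h8 : (1 / (40 * D * W)) = (1 / (40 * D)) * (1 / W) := by field_simp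
        rw [h8, Real.mul_rpow (by positivity) (by positivity), ← ha]
        rw [Real.div_rpow (by norm_num) hWpos.le, Real.one_rpow]
        have h9 : W = W ^ (2 / 3 : ℝ) * W ^ (1 / 3 : ℝ) := by
          rw [← Real.rpow_add hWpos]; norm_num
        have h10 : (0 : ℝ) < W ^ (2 / 3 : ℝ) := by positivity
        nth_rewrite 2 [h9]
        field_simp
      have h9 : C₀ / (cB * a) ≤ W ^ (1 / 3 : ℝ) := by
        have h10 : (C₀ / (cB * a)) ^ 3 ≤ W := by
          rw [← hX]; linarith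
        have h11 := Real.rpow_le_rpow (by positivity) h10 (show (0 : ℝ) ≤ 1 / 3 by norm_num)
        rw [← Real.rpow_natCast, ← Real.rpow_mul (by positivity)] at h11
        norm_num at h11
        exact h11
      rw [div_le_iff₀ (by positivity)] at h9
      calc C₀ ≤ W ^ (1 / 3 : ℝ) * (cB * a) := h9
        _ = cB * ((1 / (40 * D * W)) ^ (2 / 3 : ℝ) * W) := by rw [h7]; ring
        _ ≤ cB * ((1 / (4 * (D * s))) ^ (2 / 3 : ℝ) * W) := by gcongr)
  rw [← hW] at h5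
  have h6 : (1 / (4 * (D * s))) ^ (8 / 3 : ℝ) =
      (1 / (4 * D) : ℝ) ^ (8 / 3 : ℝ) * s ^ (-(8 / 3 : ℝ)) := by
    have h7 : (1 / (4 * (D * s))) = (1 / (4 * D)) * (1 / s) := by field_simp
    rw [h7, Real.mul_rpow (by positivity) (by positivity), Real.rpow_neg hs0.le,
      Real.div_rpow (by norm_num) hs0.le, Real.one_rpow, one_div (s ^ (8 / 3 : ℝ))]
  calc mm * (1 + HK A B) * s ^ (-(8 / 3 : ℝ))
      ≤ (cB * (1 / (4 * D) : ℝ) ^ (8 / 3 : ℝ) / 5) * (5 * W) * s ^ (-(8 / 3 : ℝ)) := by gcongr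
    _ = cB * (1 / (4 * (D * s))) ^ (8 / 3 : ℝ) * W := by rw [h6]; ring
    _ ≤ e := h5

end Pool.Agent.Helper42.LK
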