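import Pool.Agent.Helper42.LK.Defs

open Filter Topology NumberField

namespace Pool.Agent.Helper42.LK

open Pool.Agent.Helper42.LS

lemma klb_cu {F : Type} [Field F] {A B : F} {x y : ℕ → F} (hg : GSeq (0 : F) A B x y) (k : ℕ)
    (hk : 1 ≤ k) : cu A B (x k) ≠ 0 := by
  have h1 : cu A B (x k) = y k ^ 2 := by
    have := hg.curve k hk
    unfold cu
    linear_combination -this
  rw [h1]
  exact pow_ne_zero _ (hg.yne k hk)

/-- rescaling of a potential -/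
lemma klb_scale {F : Type} [Field F] [CharZero F] (v : DV F) {A B u : F} (hu : u ≠ 0)
    {x y : ℕ → F} (hg : GSeq (0 : F) A B x y) {U : ℕ → ℝ} {c : ℝ}
    (h1 : ∀ k : ℕ, 1 ≤ k → 4 * U k - c ≤ U (2 * k) +
      Real.log (v.nr (4 * cu (u ^ 4 * A) (u ^ 6 * B) (u ^ 2 * x k))))
    (h2 : ∃ C : ℝ, ∀ k : ℕ, 1 ≤ k → U k ≤ Real.log (max (v.nr (u ^ 2 * x k)) 1) + C) :
    (∀ k : ℕ, 1 ≤ k → 4 * (U k - 2 * Real.log (v.nr u)) - c ≤
      (U (2 * k) - 2 * Real.log (v.nr u)) + Real.log (v.nr (4 * cu A B (x k)))) ∧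
    (∃ C : ℝ, ∀ k : ℕ, 1 ≤ k → U k - 2 * Real.log (v.nr u) ≤
      Real.log (max (v.nr (x k)) 1) + C) := by
  constructor
  · intro k hk
    have h3 := h1 k hk
    have h4 : 4 * cu (u ^ 4 * A) (u ^ 6 * B) (u ^ 2 * x k) = u ^ 6 * (4 * cu A B (x k)) := by
      unfold cu; ring
    have h5 : (4 * cu A B (x k)) ≠ 0 := mul_ne_zero (by norm_num) (klb_cu hg k hk)
    rw [h4, v.nr_mul, v.nr_pow, Real.log_mul (pow_ne_zero _ (v.nr_ne_zero hu)) (v.nr_ne_zero h5),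
      Real.log_pow] at h3
    push_cast at h3
    linarith
  · obtain ⟨C, hC⟩ := h2
    refine ⟨Real.log (max (v.nr (u ^ 2)) 1) + C - 2 * Real.log (v.nr u), fun k hk => ?_⟩
    have h3 := hC k hk
    have h4 : max (v.nr (u ^ 2 * x k)) 1 ≤ max (v.nr (u ^ 2)) 1 * max (v.nr (x k)) 1 := by
      rw [v.nr_mul]
      apply max_le
      · exact mul_le_mul (le_max_left _ _) (le_max_left _ _) (v.nr_nonneg _)
          (le_max_of_le_right zero_le_one)
      · exact one_le_mul_of_one_le_of_one_le (le_max_right _ _) (le_max_right _ _)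
    have h5 := Real.log_le_log (lt_of_lt_of_le one_pos (le_max_right _ _)) h4
    rw [Real.log_mul (by positivity) (by positivity)] at h5
    linarith

lemma klb_dsc {F : Type} [Field F] (A B u : F) :
    dsc (u ^ 4 * A) (u ^ 6 * B) = u ^ 12 * dsc A B := by
  unfold dsc; ring

lemma klb_log_dsc {F : Type} [Field F] (v : DV F) {A B u : F} (hu : u ≠ 0) (hD : dsc A B ≠ 0) :
    Real.log (v.nr (dsc (u ^ 4 * A) (u ^ 6 * B))) =
      12 * Real.log (v.nr u) + Real.log (v.nr (dsc A B)) := by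
  rw [klb_dsc, v.nr_mul, v.nr_pow, Real.log_mul (pow_ne_zero _ (v.nr_ne_zero hu))
    (v.nr_ne_zero hD), Real.log_pow]
  push_cast; ring

lemma klb_ord_num {F : Type} [Field F] [CharZero F] (v : DV F) (h2 : v.ord 2 = 0)
    (h3 : v.ord 3 = 0) : v.ord 6912 = 0 ∧ v.ord 16 = 0 ∧ v.ord 27 = 0 ∧ v.ord 4 = 0 := by
  refine ⟨?_, ?_, ?_, ?_⟩
  · have := v.ord_two_three h2 h3 8 3
    norm_num at this; exact this
  · have := v.ord_two_three h2 h3 4 0
    norm_num at this; exact this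
  · have := v.ord_two_three h2 h3 0 3
    norm_num at this; exact this
  · have := v.ord_two_three h2 h3 2 0
    norm_num at this; exact this

lemma klb_B2_zero : B2 0 = 1 / 6 := by simp [B2]

theorem st_KLB (hPM : ST_KPM) (hPG : ST_KPG) (hAD : ST_KAD) (hMN : ST_KMN) (hSC : ST_KSC) :
    ST_KLB := by
  intro F _ _ v h2 h3 A₀ B₀ hD₀ x₀ y₀ hg₀
  obtain ⟨u, hu0, huA, huB, hmin, hdl, -⟩ := hMN F v A₀ B₀ hD₀
  obtain ⟨h6912, h16, h27, h4⟩ := klb_ord_num v h2 h3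
  have hg := hSC F A₀ B₀ u x₀ y₀ hu0 hg₀
  have hlogD := klb_log_dsc v hu0 hD₀
  have hD : dsc (u ^ 4 * A₀) (u ^ 6 * B₀) ≠ 0 := by
    rw [klb_dsc]; exact mul_ne_zero (pow_ne_zero _ hu0) hD₀
  have hlq := v.log_q_pos
  -- a potential for the minimal equation suffices
  suffices hkey : ∃ (t : ℝ) (n : ℕ) (U : ℕ → ℝ), 0 ≤ dl v.nr A₀ B₀ ∧ 1 ≤ n ∧
      (∃ a : ℤ, (n : ℝ) * t = a) ∧
      (dl v.nr A₀ B₀ ≠ 0 → n * Real.log v.q ≤ dl v.nr A₀ B₀) ∧ (t ≠ 0 → IsMul v.nr A₀ B₀) ∧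
      (∀ k : ℕ, 1 ≤ k → 4 * U k - 0 ≤ U (2 * k) +
        Real.log (v.nr (4 * cu (u ^ 4 * A₀) (u ^ 6 * B₀) (u ^ 2 * x₀ k)))) ∧
      (∃ C : ℝ, ∀ k : ℕ, 1 ≤ k → U k ≤ Real.log (max (v.nr (u ^ 2 * x₀ k)) 1) + C) ∧
      (∀ k : ℕ, 1 ≤ k → dl v.nr A₀ B₀ * B2 (k * t) +
        1 / 6 * Real.log (v.nr (dsc (u ^ 4 * A₀) (u ^ 6 * B₀))) ≤ U (12 * k)) by
    obtain ⟨t, n, U, h5, h6, h7, h8, h9, h10, h11, h12⟩ := hkey
    obtain ⟨h13, h14⟩ := klb_scale v hu0 hg₀ h10 h11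
    refine ⟨t, n, fun k => U k - 2 * Real.log (v.nr u), h5, h6, h7, h8, h9, ?_, h14, ?_⟩
    · intro k hk; have := h13 k hk; linarith
    · intro k hk
      have := h12 k hk
      rw [hlogD] at this
      simp only
      linarith
  set A := u ^ 4 * A₀ with hA
  set B := u ^ 6 * B₀ with hB
  have hAint : v.nr A ≤ 1 := huA
  have hBint : v.nr B ≤ 1 := huB
  -- the discriminant is integral
  have hDint : v.nr (dsc A B) ≤ 1 := by
    unfold dsc
    refine (v.nr_add_le _ _).trans (max_le ?_ ?_)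
    · rw [v.nr_mul, v.nr_pow]
      exact mul_le_one₀ (v.nr_ofNat 4) (pow_nonneg (v.nr_nonneg _) _)
        (pow_le_one₀ (v.nr_nonneg _) hAint)
    · rw [v.nr_mul, v.nr_pow]
      exact mul_le_one₀ (v.nr_ofNat 27) (pow_nonneg (v.nr_nonneg _) _)
        (pow_le_one₀ (v.nr_nonneg _) hBint)
  have hordD : 0 ≤ v.ord (dsc A B) := (v.nr_le_one_iff hD).1 hDint
  obtain ⟨N, hN⟩ : ∃ N : ℕ, v.ord (dsc A B) = N := ⟨(v.ord (dsc A B)).toNat, by
    rw [Int.toNat_of_nonneg hordD]⟩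
  have hdlN : dl v.nr A₀ B₀ = N * Real.log v.q := by
    rw [hdl, v.log_nr hD, hN]; push_cast; ring
  have hlogDN : Real.log (v.nr (dsc A B)) = -(N * Real.log v.q) := by
    rw [v.log_nr hD, hN]; push_cast; ring
  have hdl0 : 0 ≤ dl v.nr A₀ B₀ := by rw [hdlN]; positivity
  -- the part with t = 0
  have hzero : (∃ U : ℕ → ℝ, (∀ k : ℕ, 1 ≤ k → 4 * U k ≤ U (2 * k) +
        Real.log (v.nr (4 * cu A B (u ^ 2 * x₀ k)))) ∧
      (∃ C : ℝ, ∀ k : ℕ, 1 ≤ k → U k ≤ Real.log (max (v.nr (u ^ 2 * x₀ k)) 1) + C) ∧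
      (∀ k : ℕ, 1 ≤ k → 0 ≤ U (12 * k))) →
      ∃ (t : ℝ) (n : ℕ) (U : ℕ → ℝ), 0 ≤ dl v.nr A₀ B₀ ∧ 1 ≤ n ∧
      (∃ a : ℤ, (n : ℝ) * t = a) ∧
      (dl v.nr A₀ B₀ ≠ 0 → n * Real.log v.q ≤ dl v.nr A₀ B₀) ∧ (t ≠ 0 → IsMul v.nr A₀ B₀) ∧
      (∀ k : ℕ, 1 ≤ k → 4 * U k - 0 ≤ U (2 * k) +
        Real.log (v.nr (4 * cu A B (u ^ 2 * x₀ k)))) ∧
      (∃ C : ℝ, ∀ k : ℕ, 1 ≤ k → U k ≤ Real.log (max (v.nr (u ^ 2 * x₀ k)) 1) + C) ∧
      (∀ k : ℕ, 1 ≤ k → dl v.nr A₀ B₀ * B2 (k * t) +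
        1 / 6 * Real.log (v.nr (dsc A B)) ≤ U (12 * k)) := by
    rintro ⟨U, hU1, hU2, hU3⟩
    refine ⟨0, 1, U, hdl0, le_rfl, ⟨0, by simp⟩, ?_, fun h => absurd rfl h, ?_, hU2, ?_⟩
    · intro h5
      rw [hdlN] at h5 ⊢
      have hN0 : N ≠ 0 := by rintro rfl; simp at h5
      have hN1 : (1 : ℝ) ≤ N := by exact_mod_cast Nat.one_le_iff_ne_zero.2 hN0
      push_cast
      nlinarith
    · intro k hk; have := hU1 k hk; linarith
    · intro k hk
      have h5 := hU3 k hk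
      rw [mul_zero, klb_B2_zero, hdlN, hlogDN]
      linarith
  by_cases hA1 : v.nr A = 1
  · have hA0 : A ≠ 0 := by
      intro h; rw [h, v.nr_zero] at hA1; exact zero_ne_one hA1
    have hordA : v.ord A = 0 := (v.nr_eq_one_iff hA0).1 hA1
    by_cases hN0 : N = 0
    · -- good reduction
      have hD1 : v.nr (dsc A B) = 1 := (v.nr_eq_one_iff hD).2 (by rw [hN, hN0]; rfl)
      obtain ⟨U, hU1, hU2, hU3, -⟩ := hPG F v h2 h3 A B hD (by
        rw [hD1, v.nr_mul, v.nr_pow]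
        exact mul_le_one₀ (v.nr_ofNat 6912) (pow_nonneg (v.nr_nonneg _) _)
          (pow_le_one₀ (v.nr_nonneg _) hAint)) _ _ hg
      apply hzero
      refine ⟨U, hU1, hU2, fun k hk => ?_⟩
      have := hU3 (12 * k) (by omega)
      rw [hD1, Real.log_one, mul_zero] at this
      exact this
    · -- multiplicative reduction
      have hN1 : 1 ≤ N := Nat.one_le_iff_ne_zero.2 hN0
      have hj : v.ord (6912 * A ^ 3 / dsc A B) = -(N : ℤ) := by
        rw [v.ord_div (mul_ne_zero (by norm_num) (pow_ne_zero _ hA0)) hD,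
          v.ord_mul _ _ (by norm_num) (pow_ne_zero _ hA0), v.ord_pow, h6912, hordA, hN]
        simp
      obtain ⟨r, a, U, hr, hU1, hU2, hU3, -⟩ := hPM F v N hN1 A B hD hj _ _ hg
      have hr0 : r = 0 := by
        rw [v.ord_mul _ _ (by norm_num) hD, h16, hN] at hr
        omega
      have hNR : (0 : ℝ) < N := by exact_mod_cast hN1
      refine ⟨6 * a / N, N, U, hdl0, hN1, ⟨6 * a, by push_cast; field_simp⟩, ?_, ?_, ?_, hU2, ?_⟩
      · intro _; rw [hdlN]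
      · intro _
        refine ⟨u, hA1, hBint, ?_⟩
        have e1 : u ^ 12 * (4 * A₀ ^ 3 + 27 * B₀ ^ 2) = dsc A B := by
          rw [hA, hB, klb_dsc]; rfl
        rw [e1, v.nr_lt_one_iff hD, hN]
        exact_mod_cast hN1
      · intro k hk; have := hU1 k hk; linarith
      · intro k hk
        have := hU3 (12 * k) (by omega)
        rw [hr0] at this
        have e1 : (((12 * k : ℕ) : ℝ) * ((a : ℝ) / (2 * N))) = k * (6 * a / N) := by
          push_cast; field_simp; ring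
        rw [e1] at this
        rw [hdlN, hlogDN]
        push_cast at this
        linarith
  · have hA1' : v.nr A < 1 := lt_of_le_of_ne hAint hA1
    by_cases hN0 : N = 0
    · -- good reduction
      have hD1 : v.nr (dsc A B) = 1 := (v.nr_eq_one_iff hD).2 (by rw [hN, hN0]; rfl)
      obtain ⟨U, hU1, hU2, hU3, -⟩ := hPG F v h2 h3 A B hD (by
        rw [hD1, v.nr_mul, v.nr_pow]
        exact mul_le_one₀ (v.nr_ofNat 6912) (pow_nonneg (v.nr_nonneg _) _)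
          (pow_le_one₀ (v.nr_nonneg _) hAint)) _ _ hg
      apply hzero
      refine ⟨U, hU1, hU2, fun k hk => ?_⟩
      have := hU3 (12 * k) (by omega)
      rw [hD1, Real.log_one, mul_zero] at this
      exact this
    · -- additive reduction
      have hDlt : v.nr (dsc A B) < 1 := by
        rw [v.nr_lt_one_iff hD, hN]
        exact_mod_cast Nat.one_le_iff_ne_zero.2 hN0
      have hBlt : v.nr B < 1 := by
        have h27' : v.nr (27 : F) = 1 := (v.nr_eq_one_iff (by norm_num)).2 h27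
        have e1 : 27 * B ^ 2 = dsc A B + -(4 * A ^ 3) := by unfold dsc; ring
        have e2 : v.nr (27 * B ^ 2) < 1 := by
          rw [e1]
          refine lt_of_le_of_lt (v.nr_add_le _ _) (max_lt hDlt ?_)
          rw [v.nr_neg, v.nr_mul, v.nr_pow]
          calc v.nr 4 * v.nr A ^ 3 ≤ 1 * v.nr A ^ 3 :=
                mul_le_mul_of_nonneg_right (v.nr_ofNat 4) (pow_nonneg (v.nr_nonneg _) _)
            _ = v.nr A ^ 3 := one_mul _
            _ < 1 := pow_lt_one₀ (v.nr_nonneg _) hA1' (by norm_num)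
        rw [v.nr_mul, h27', one_mul, v.nr_pow] at e2
        by_contra hcon
        push Not at hcon
        exact absurd (one_le_pow₀ hcon (n := 2)) (not_le.2 e2)
      have hx12 := hAD F v h2 h3 A B hD hA1' hBlt hmin _ _ hg
      apply hzero
      by_cases hj : v.nr (6912 * A ^ 3) ≤ v.nr (dsc A B)
      · obtain ⟨U, hU1, hU2, -, hU4⟩ := hPG F v h2 h3 A B hD hj _ _ hg
        exact ⟨U, hU1, hU2, fun k hk => hU4 (12 * k) (by omega) (hx12 k hk)⟩
      · push Not at hj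
        have hA0 : A ≠ 0 := by
          intro h
          rw [h] at hj
          simp only [ne_eq, OfNat.ofNat_ne_zero, not_false_eq_true, zero_pow, mul_zero,
            v.nr_zero] at hj
          exact absurd (v.nr_nonneg _) (not_le.2 hj)
        have hne : 6912 * A ^ 3 ≠ 0 := mul_ne_zero (by norm_num) (pow_ne_zero _ hA0)
        have hord : v.ord (6912 * A ^ 3 / dsc A B) < 0 := by
          rw [v.nr_of_ne hne, v.nr_of_ne hD, zpow_lt_zpow_iff_right₀ v.one_lt_q] at hj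
          rw [v.ord_div hne hD]; omega
        obtain ⟨N', hN'⟩ : ∃ N' : ℕ, v.ord (6912 * A ^ 3 / dsc A B) = -(N' : ℤ) :=
          ⟨(-(v.ord (6912 * A ^ 3 / dsc A B))).toNat, by
            rw [Int.toNat_of_nonneg (by omega)]; ring⟩
        have hN1 : 1 ≤ N' := by omega
        obtain ⟨r, a, U, -, hU1, hU2, -, hU4⟩ := hPM F v N' hN1 A B hD hN' _ _ hg
        exact ⟨U, hU1, hU2, fun k hk => hU4 h2 h3 hA1' (12 * k) (by omega) (hx12 k hk)⟩

end Pool.Agent.Helper42.LK
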