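import Pool.Agent.Helper17.LS.CB
import Pool.Agent.Helper33.LK.KAD
import Pool.Agent.Helper33.LK.KCH
import Pool.Agent.Helper33.LK.KGL
import Pool.Agent.Helper33.LK.KPA
import Pool.Agent.Helper33.LK.KPD
import Pool.Agent.Helper33.LS.CA
import Pool.Agent.Helper41.LK.CFAa
import Pool.Agent.Helper41.LK.CFAb
import Pool.Agent.Helper41.LK.CID
import Pool.Agent.Helper42.LK.CFA
import Pool.Agent.Helper42.LK.KFinB
import Pool.Agent.Helper42.LK.KLB
import Pool.Agent.Helper42.LK.KLS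
import Pool.Agent.Helper42.LK.KMT
import Pool.Agent.Helper45.LK.KMK
import Pool.Agent.Helper50.LS.PI
import Pool.Agent.Helper50.LS.RC
import Pool.Agent.Helper71.LK.CFD
import Pool.Agent.Helper71.LK.CR
import Pool.Agent.Helper71.LK.KDF
import Pool.Agent.Helper71.LK.KFP
import Pool.Agent.Helper71.LK.KGO
import Pool.Agent.Helper71.LK.KMN
import Pool.Agent.Helper71.LK.KRM
import Pool.Agent.Helper81.LS.CK
import Pool.Agent.Helper81.LS.FB
import Pool.Agent.Helper84.LK.CX
import Pool.Agent.Helper84.LK.KPG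
import Pool.Agent.Helper95.LK.C0
import Pool.Agent.Helper95.LK.KPM
import Pool.Agent.Helper99.LK.CS
import Pool.Agent.Helper99.LK.FS1
import Pool.Agent.Helper99.LK.FST
import Pool.Agent.Helper99.LK.KPL
import Pool.Agent.Helper99.LK.KPOT
import Pool.Agent.Helper99.LK.KSM

open Filter Topology NumberField

namespace Pool.Agent.Helper42.LK

open Pool.Agent.Helper42.LS

theorem kall_PM : ST_KPM := st_KPM st_KPA st_KPD st_PI

theorem kall_LB : ST_KLB := st_KLB kall_PM st_KPG st_KAD st_KMN st_KSC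

theorem kall_LS : ST_KLS := st_KLS kall_PM st_KPS st_KMN st_KSC

theorem kall_CFA : ST_CFA := st_CFA st_CFAa st_CFAb

theorem kall_CS : ST_CS := st_CS st_CID kall_CFA st_CFD st_CP (st_FST st_FS1 st_RC)

theorem kall_CX : ST_CX := st_CX st_C0 st_CR kall_CS

theorem kall_DF : ST_KDF := st_KDF st_KFP st_KMN

theorem kall_RM : ST_KRM := st_KRM st_KMK st_KMN st_KFP kall_DF

theorem kall_CH : ST_KCH := st_KCH st_KPL

theorem kall_NC : ST_KNC := st_KNC kall_CH

theorem kall_SM : ST_KSM := st_KSM kall_RM kall_NC st_KSC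

/-- the master inequality over number fields -/
theorem kall_MT : ST_KMT := st_KMT kall_LB kall_LS st_KGO kall_CX st_KPOT kall_DF st_KFP

theorem kall_R2 : ST_KR2 := st_KR2 kall_MT kall_SM (st_CA st_F1) (st_CK st_F2)

theorem kall_R3 : ST_KR3 := st_KR3 kall_MT kall_SM (st_CB st_F1 st_F3 st_F4)

/-- The multiples of a point of infinite order, and its canonical height. -/
theorem kpts_seq {K : Type} [Field K] [NumberField K] [DecidableEq K] (A B : K)
    (hD : 4 * A ^ 3 + 27 * B ^ 2 ≠ 0)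
    (P : (ECK A B).toAffine.Point) (hP : ∀ n : ℕ, 0 < n → n • P ≠ 0) :
    ∃ (x y : ℕ → K) (e : ℝ), GSeq (0 : K) A B x y ∧ IsCanK x e ∧
      Tendsto (fun n : ℕ => hxK (2 ^ n • P) / 4 ^ n) atTop (𝓝 e) := by
  obtain ⟨x, y, hg, hxy⟩ := st_KGL K A B P hP
  obtain ⟨C, hC⟩ := kall_CH K A B hD
  obtain ⟨e, he, -⟩ := hC x y hg
  refine ⟨x, y, e, hg, he, ?_⟩
  have h1 := he 1 le_rfl
  simp only [one_mul, Nat.cast_one, one_pow] at h1
  refine h1.congr (fun n => ?_)
  obtain ⟨h, hh⟩ := hxy (2 ^ n) (Nat.one_le_two_pow)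
  rw [hh]
  rfl

end Pool.Agent.Helper42.LK
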