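import Pool.Agent.Helper42.LK.Defs

open Filter Topology NumberField

namespace Pool.Agent.Helper42.LK

open Pool.Agent.Helper42.LS

/-- one dominating place -/
lemma kfin_CK (hCK : ST_CK) {C₀ H L Rd : ℝ} {m : ℕ} {e : ℝ}
    {V P : Finset ℕ} {w t : ℕ → ℝ} {n : ℕ → ℕ} (h : MSum C₀ H L Rd m e V P w t n) {κ : ℝ} (hκ : 0 < κ) (hκ1 : κ ≤ 1)
    {v₀ : ℕ} (hv : v₀ ∈ V)
    (hw : κ * (∑ v ∈ V, w v) ≤ w v₀)
    (hbig : 160 * C₀ ≤ κ * (∑ v ∈ V, w v)) :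
    κ ^ 3 * (∑ v ∈ V, w v) / 5184000 ≤ e := by
  have h1 := h.nonneg
  have h4 := h.main
  set W := ∑ v ∈ V, w v with hW
  have hW0 : 0 ≤ W := Finset.sum_nonneg h1
  obtain ⟨k, hk1, hk2, hk3⟩ := hCK V w t κ v₀ h1 hv hκ hκ1 hw
  have h5 := h4 k hk1
  have hk1' : (1 : ℝ) ≤ k := by exact_mod_cast hk1
  have h6 : κ * W / 160 ≤ 144 * (k : ℝ) ^ 2 * e := by
    rw [← hW] at hk3
    linarith
  have h7 : κ ^ 2 * (k : ℝ) ^ 2 ≤ 225 := by
    have : 0 ≤ κ * k := by positivity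
    nlinarith
  have h8 : κ ^ 3 * W / 160 ≤ 144 * 225 * e := by
    have he0 : 0 ≤ e := by
      by_contra hcon
      push Not at hcon
      have : 144 * (k : ℝ) ^ 2 * e < 0 := by
        apply mul_neg_of_pos_of_neg (by positivity) hcon
      have : 0 ≤ κ * W / 160 := by positivity
      linarith
    calc κ ^ 3 * W / 160 = κ ^ 2 * (κ * W / 160) := by ring
      _ ≤ κ ^ 2 * (144 * (k : ℝ) ^ 2 * e) := mul_le_mul_of_nonneg_left h6 (by positivity)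
      _ = 144 * (κ ^ 2 * (k : ℝ) ^ 2) * e := by ring
      _ ≤ 144 * 225 * e := by
        apply mul_le_mul_of_nonneg_right _ he0
        linarith
  linarith

/-- Szpiro ratio part -/
lemma kfin_CA (hCA : ST_CA) : ∃ c : ℝ, 0 < c ∧ ∀ {C₀ H L Rd : ℝ} {m : ℕ} {e : ℝ}
    {V P : Finset ℕ} {w t : ℕ → ℝ} {n : ℕ → ℕ}, 0 ≤ C₀ → MSum C₀ H L Rd m e V P w t n → ∀ R : ℝ, 0 < R →
    R ≤ ∑ p ∈ P, w p / n p → C₀ ≤ c * R →
    c * R ^ 5 / (∑ v ∈ V, w v) ^ 4 ≤ e := by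
  obtain ⟨c, hc, hCA⟩ := hCA
  set c' := min (c / 2) (c ^ 3 / 288) with hc'
  have hc'0 : 0 < c' := lt_min (by positivity) (by positivity)
  refine ⟨c', hc'0, ?_⟩
  intro C₀ H L Rd m e V P w t n hC₀ h R hR hRle hbig
  have h1 := h.nonneg
  have h2 : ∀ v ∈ P, 1 ≤ n v ∧ ∃ a : ℤ, (n v : ℝ) * t v = a := fun v hv => ⟨h.npos v hv, h.int v hv⟩
  have h4 := h.main
  have hsub := h.sub
  set W := ∑ v ∈ V, w v with hW
  obtain ⟨k, hk1, hk2, hk3⟩ := hCA V P w t n W R hsub h1 (fun v hv => h2 v hv)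
    hW hR hRle
  have hk1' : (1 : ℝ) ≤ k := by exact_mod_cast hk1
  have hRW : R ≤ W := by
    refine hRle.trans ?_
    calc ∑ p ∈ P, w p / n p ≤ ∑ p ∈ P, w p := by
          apply Finset.sum_le_sum
          intro p hp
          have hn : (1 : ℝ) ≤ n p := by exact_mod_cast (h2 p hp).1
          exact div_le_self (h1 p (hsub hp)) hn
      _ ≤ W := Finset.sum_le_sum_of_subset_of_nonneg hsub (fun v hv _ => h1 v hv)
  have hW0 : 0 < W := lt_of_lt_of_le hR hRW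
  have h5 := h4 k hk1
  have h6 : c / 2 * R ≤ 144 * (k : ℝ) ^ 2 * e := by
    have h7 : C₀ ≤ c / 2 * R := hbig.trans (mul_le_mul_of_nonneg_right (min_le_left _ _) hR.le)
    linarith
  have he0 : 0 ≤ e := by
    by_contra hcon
    push Not at hcon
    have : 144 * (k : ℝ) ^ 2 * e < 0 := mul_neg_of_pos_of_neg (by positivity) hcon
    have : 0 ≤ c / 2 * R := by positivity
    linarith
  have h7 : c ^ 2 * (k : ℝ) ^ 2 ≤ (W / R) ^ 4 := by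
    have h8 : 0 ≤ c * k := by positivity
    calc c ^ 2 * (k : ℝ) ^ 2 = (c * k) ^ 2 := by ring
      _ ≤ ((W / R) ^ 2) ^ 2 := pow_le_pow_left₀ h8 hk2 2
      _ = (W / R) ^ 4 := by ring
  have h8 : c ^ 3 / 2 * R ≤ 144 * (W / R) ^ 4 * e := by
    calc c ^ 3 / 2 * R = c ^ 2 * (c / 2 * R) := by ring
      _ ≤ c ^ 2 * (144 * (k : ℝ) ^ 2 * e) := mul_le_mul_of_nonneg_left h6 (by positivity)
      _ = 144 * (c ^ 2 * (k : ℝ) ^ 2) * e := by ring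
      _ ≤ 144 * (W / R) ^ 4 * e := by
        apply mul_le_mul_of_nonneg_right _ he0
        linarith
  rw [div_le_iff₀ (by positivity)]
  have h9 : c' ≤ c ^ 3 / 288 := min_le_right _ _
  calc c' * R ^ 5 ≤ c ^ 3 / 288 * R ^ 5 := mul_le_mul_of_nonneg_right h9 (by positivity)
    _ = (c ^ 3 / 2 * R) * (R ^ 4 / 144) := by ring
    _ ≤ (144 * (W / R) ^ 4 * e) * (R ^ 4 / 144) := mul_le_mul_of_nonneg_right h8 (by positivity)
    _ = e * W ^ 4 := by field_simp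

/-- second moment part -/
lemma kfin_CB (hCB : ST_CB) : ∃ c : ℝ, 0 < c ∧ ∀ {C₀ H L Rd : ℝ} {m : ℕ} {e : ℝ}
    {V P : Finset ℕ} {w t : ℕ → ℝ} {n : ℕ → ℕ}, 0 ≤ C₀ → MSum C₀ H L Rd m e V P w t n → ∀ ρ : ℝ, 0 < ρ →
    ρ * (∑ v ∈ V, w v) ^ 2 ≤
      ∑ v ∈ V, w v ^ 2 →
    0 < (∑ v ∈ V, w v) →
    C₀ ≤ c * (ρ ^ (2 / 3 : ℝ) *
      (∑ v ∈ V, w v)) →
    c * ρ ^ (8 / 3 : ℝ) *
      (∑ v ∈ V, w v) ≤ e := by
  -- constants
  set a : ℝ := (23 : ℝ) ^ (-(2 / 3 : ℝ)) / 16 with ha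
  have ha0 : 0 < a := by positivity
  set c' : ℝ := a / (144 * 46 ^ 2) with hc'
  have hc'0 : 0 < c' := by positivity
  have hc'a : c' ≤ a := by
    rw [hc']; exact div_le_self ha0.le (by norm_num)
  refine ⟨c', hc'0, ?_⟩
  intro C₀ H L Rd m e V P w t n hC₀ h ρ hρ hρle hWpos hbig
  have h1 := h.nonneg
  have h2 : ∀ v ∈ P, 1 ≤ n v ∧ ∃ a : ℤ, (n v : ℝ) * t v = a := fun v hv => ⟨h.npos v hv, h.int v hv⟩
  have h4 := h.main
  have hsub := h.sub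
  set W := ∑ v ∈ V, w v with hW
  set ρ' := ∑ v ∈ V, (w v / W) ^ 2 with hρ'
  have hρρ' : ρ ≤ ρ' := by
    have : ρ' = (∑ v ∈ V, w v ^ 2) / W ^ 2 := by
      rw [hρ', Finset.sum_div]
      apply Finset.sum_congr rfl
      intro v _
      rw [div_pow]
    rw [this, le_div_iff₀ (by positivity)]
    exact hρle
  have hρ'1 : ρ' ≤ 1 := by
    have hs : ∑ v ∈ V, w v / W = 1 := by rw [← Finset.sum_div, ← hW, div_self hWpos.ne']
    rw [← hs]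
    apply Finset.sum_le_sum
    intro v hv
    have h5 : 0 ≤ w v / W := div_nonneg (h1 v hv) hWpos.le
    have h6 : w v / W ≤ 1 := by
      rw [div_le_one hWpos]
      exact Finset.single_le_sum h1 hv
    nlinarith
  have hρ1 : ρ ≤ 1 := hρρ'.trans hρ'1
  set K := ⌈22 / ρ⌉₊ with hK
  have hK1 : 22 / ρ ≤ K := Nat.le_ceil _
  have hK2 : (K : ℝ) ≤ 23 / ρ := by
    have h5 : (K : ℝ) < 22 / ρ + 1 := Nat.ceil_lt_add_one (by positivity)
    have h6 : 1 ≤ 1 / ρ := by rw [le_div_iff₀ hρ]; linarith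
    have h7 : 23 / ρ = 22 / ρ + 1 / ρ := by ring
    linarith
  have hK0 : (0 : ℝ) < K := lt_of_lt_of_le (by positivity) hK1
  obtain ⟨k, hk1, hk2, hk3⟩ := hCB V (fun v => w v / W) t ρ' K
    (fun v hv => div_nonneg (h1 v hv) hWpos.le)
    (by rw [← Finset.sum_div, ← hW, div_self hWpos.ne']) hρ' (by
      calc (22 : ℝ) = ρ * (22 / ρ) := by field_simp
        _ ≤ ρ' * K := mul_le_mul hρρ' hK1 (by positivity) (hρ.le.trans hρρ'))
  have hk1' : (1 : ℝ) ≤ k := by exact_mod_cast hk1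
  have hk2' : (k : ℝ) ≤ 46 / ρ := by
    have : (k : ℝ) ≤ 2 * K := by exact_mod_cast hk2
    have h7 : 46 / ρ = 2 * (23 / ρ) := by ring
    linarith
  have hS : ∑ v ∈ V, w v / W * B2 (k * t v) = (∑ v ∈ V, w v * B2 (k * t v)) / W := by
    rw [Finset.sum_div]
    apply Finset.sum_congr rfl
    intro v _
    ring
  rw [hS, le_div_iff₀ hWpos] at hk3
  have hKp : (23 : ℝ) ^ (-(2 / 3 : ℝ)) * ρ ^ (2 / 3 : ℝ) ≤ (K : ℝ) ^ (-(2 / 3 : ℝ)) := by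
    have h5 : (23 / ρ) ^ (-(2 / 3 : ℝ)) ≤ (K : ℝ) ^ (-(2 / 3 : ℝ)) :=
      Real.rpow_le_rpow_of_nonpos hK0 hK2 (by norm_num)
    have h6 : (23 / ρ) ^ (-(2 / 3 : ℝ)) = (23 : ℝ) ^ (-(2 / 3 : ℝ)) * ρ ^ (2 / 3 : ℝ) := by
      rw [Real.div_rpow (by norm_num) hρ.le, Real.rpow_neg hρ.le, div_inv_eq_mul]
    rw [← h6]; exact h5
  have h5 := h4 k hk1
  have h6 : a * (ρ ^ (2 / 3 : ℝ) * W) ≤ 144 * (k : ℝ) ^ 2 * e := by
    have h7 : 2 * a * (ρ ^ (2 / 3 : ℝ) * W) ≤ ∑ v ∈ V, w v * B2 (k * t v) := by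
      refine le_trans ?_ hk3
      calc 2 * a * (ρ ^ (2 / 3 : ℝ) * W) = ((23 : ℝ) ^ (-(2 / 3 : ℝ)) * ρ ^ (2 / 3 : ℝ)) / 8 * W := by
            rw [ha]; ring
        _ ≤ (K : ℝ) ^ (-(2 / 3 : ℝ)) / 8 * W := by
            apply mul_le_mul_of_nonneg_right _ hWpos.le
            linarith
    have h8 : C₀ ≤ a * (ρ ^ (2 / 3 : ℝ) * W) :=
      hbig.trans (mul_le_mul_of_nonneg_right hc'a (by positivity))
    linarith
  have he0 : 0 ≤ e := by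
    by_contra hcon
    push Not at hcon
    have : 144 * (k : ℝ) ^ 2 * e < 0 := mul_neg_of_pos_of_neg (by positivity) hcon
    have : 0 ≤ a * (ρ ^ (2 / 3 : ℝ) * W) := by positivity
    linarith
  have h7 : a * (ρ ^ (2 / 3 : ℝ) * W) ≤ 144 * (46 / ρ) ^ 2 * e := by
    refine h6.trans ?_
    apply mul_le_mul_of_nonneg_right _ he0
    apply mul_le_mul_of_nonneg_left _ (by norm_num)
    exact pow_le_pow_left₀ (by positivity) hk2' 2
  have h8 : ρ ^ (8 / 3 : ℝ) = ρ ^ (2 / 3 : ℝ) * ρ ^ 2 := by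
    rw [show (8 / 3 : ℝ) = 2 / 3 + 2 by norm_num, Real.rpow_add hρ]
    norm_num
  calc c' * ρ ^ (8 / 3 : ℝ) * W = (a * (ρ ^ (2 / 3 : ℝ) * W)) * (ρ ^ 2 / (144 * 46 ^ 2)) := by
        rw [h8, hc']; ring
    _ ≤ (144 * (46 / ρ) ^ 2 * e) * (ρ ^ 2 / (144 * 46 ^ 2)) :=
        mul_le_mul_of_nonneg_right h7 (by positivity)
    _ = e := by field_simp



/-- few places that carry half of the mass -/
lemma kfin_few (hCK : ST_CK) {C₀ H L Rd : ℝ} {m : ℕ} {e : ℝ}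
    {V P : Finset ℕ} {w t : ℕ → ℝ} {n : ℕ → ℕ} (h : MSum C₀ H L Rd m e V P w t n)
    (T : Finset ℕ) (hT : T ⊆ V) (c : ℝ) (hc1 : 1 ≤ c) (hc : (T.card : ℝ) ≤ c)
    (hWpos : 0 < ∑ v ∈ V, w v) (hTw : (∑ v ∈ V, w v) / 2 ≤ ∑ v ∈ T, w v)
    (hbig : 320 * C₀ * c ≤ ∑ v ∈ V, w v) :
    (∑ v ∈ V, w v) / (c ^ 3 * 41472000) ≤ e := by
  set W := ∑ v ∈ V, w v with hW
  have hc0 : 0 < c := by linarith
  obtain ⟨v₀, hv₀, hmax⟩ : ∃ v₀ ∈ T, W / (2 * c) ≤ w v₀ := by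
    by_contra hcon
    push Not at hcon
    have hne : T.Nonempty := by
      rw [Finset.nonempty_iff_ne_empty]
      rintro rfl
      rw [Finset.sum_empty] at hTw
      linarith
    have h1 : ∑ v ∈ T, w v < ∑ _v ∈ T, W / (2 * c) := Finset.sum_lt_sum_of_nonempty hne hcon
    rw [Finset.sum_const, nsmul_eq_mul] at h1
    have h2 : (T.card : ℝ) * (W / (2 * c)) ≤ c * (W / (2 * c)) :=
      mul_le_mul_of_nonneg_right hc (by positivity)
    have h3 : c * (W / (2 * c)) = W / 2 := by field_simp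
    linarith
  have h1 := kfin_CK hCK h (κ := 1 / (2 * c)) (by positivity)
    (by rw [div_le_one (by positivity)]; linarith) (hT hv₀)
    (by rw [← hW]; calc 1 / (2 * c) * W = W / (2 * c) := by ring
          _ ≤ w v₀ := hmax)
    (by
      rw [← hW, div_mul_eq_mul_div, one_mul, le_div_iff₀ (by positivity)]
      linarith)
  rw [← hW] at h1
  refine le_trans (le_of_eq ?_) h1
  field_simp
  norm_num

end Pool.Agent.Helper42.LK
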