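import Pool.Agent.Helper42.LK.Defs

open Filter Topology NumberField

namespace Pool.Agent.Helper42.LK

open Pool.Agent.Helper42.LS

/-- images of sequences under field homomorphisms -/
lemma kmt_map {F E : Type} [Field F] [Field E] (φ : F →+* E) {A B : F} {x y : ℕ → F}
    (h : GSeq (0 : F) A B x y) :
    GSeq (0 : E) (φ A) (φ B) (fun k => φ (x k)) (fun k => φ (y k)) where
  curve k hk := by
    have := congrArg φ (h.curve k hk)
    simpa using this
  yne k hk := (map_ne_zero φ).2 (h.yne k hk)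
  xne k l hl hk := fun h' => h.xne k l hl hk (φ.injective h')
  dblx k hk := by
    have := congrArg φ (h.dblx k hk)
    simpa [map_ofNat] using this
  dbly k hk := by
    have := congrArg φ (h.dbly k hk)
    simpa [map_ofNat] using this
  addx k l hl hk := by
    have := congrArg φ (h.addx k l hl hk)
    simpa using this
  addy k l hl hk := by
    have := congrArg φ (h.addy k l hl hk)
    simpa using this
  subx k l hl hk := by
    have := congrArg φ (h.subx k l hl hk)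
    simpa using this
  suby k l hl hk := by
    have := congrArg φ (h.suby k l hl hk)
    simpa using this

lemma kmt_map_dsc {F E : Type} [Field F] [Field E] (φ : F →+* E) (A B : F) :
    dsc (φ A) (φ B) = φ (dsc A B) := by
  simp [dsc, map_ofNat]

lemma kmt_map_cu {F E : Type} [Field F] [Field E] (φ : F →+* E) (A B x : F) :
    4 * cu (φ A) (φ B) (φ x) = φ (4 * cu A B x) := by
  simp [cu, map_ofNat]

/-- an injection of a finite set into the natural numbers -/
lemma kmt_index {ι : Type} [Nonempty ι] (I : Finset ι) :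
    ∃ (f : ι → ℕ) (g : ℕ → ι), ∀ i ∈ I, g (f i) = i := by
  classical
  refine ⟨fun i => if h : i ∈ I then (I.equivFin ⟨i, h⟩).val else 0,
    fun j => if h : j < I.card then (I.equivFin.symm ⟨j, h⟩ : ι) else Classical.arbitrary ι, ?_⟩
  intro i hi
  have h1 : (I.equivFin ⟨i, hi⟩).val < I.card := (I.equivFin ⟨i, hi⟩).isLt
  simp only [hi, dif_pos, h1]
  simp

/-- transport of the summary to natural number indices -/
lemma kmt_transport {ι : Type} [Nonempty ι] [DecidableEq ι] {C₀ H L R : ℝ} {m : ℕ} {e E₀ : ℝ}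
    {P : ℝ → Prop}
    (I J : Finset ι) (w t : ι → ℝ) (n : ι → ℕ) (sub : J ⊆ I)
    (nonneg : ∀ v ∈ I, 0 ≤ w v) (npos : ∀ v ∈ J, 1 ≤ n v)
    (int : ∀ v ∈ J, ∃ a : ℤ, (n v : ℝ) * t v = a)
    (nle : ∀ v ∈ J, w v ≠ 0 → n v * Real.log 2 ≤ w v)
    (card : ((I \ J).card : ℝ) ≤ C₀)
    (cardf : (J.card : ℝ) * Real.log 2 ≤ R + C₀)
    (total : |∑ v ∈ I, w v - H| ≤ C₀)
    (totalf : |∑ v ∈ J, w v - L| ≤ C₀)
    (rad : R - C₀ ≤ ∑ v ∈ J, w v / n v)
    (mul : ((J.filter (fun v => t v ≠ 0)).card : ℝ) ≤ m + C₀)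
    (main : ∀ k : ℕ, 1 ≤ k → ∑ v ∈ I, w v * B2 (k * t v) - C₀ ≤ 144 * (k : ℝ) ^ 2 * e)
    (exps : ∀ E : ℝ, P E → ∀ v ∈ J, (n v : ℝ) ≤ E + E₀) :
    ∃ (V Vf : Finset ℕ) (w t : ℕ → ℝ) (n : ℕ → ℕ), MSum C₀ H L R m e V Vf w t n ∧
      ∀ E : ℝ, P E → ∀ v ∈ Vf, (n v : ℝ) ≤ E + E₀ := by
  obtain ⟨f, g, hg⟩ := kmt_index I
  have hinj : ∀ T : Finset ι, T ⊆ I → Set.InjOn f (T : Set ι) := by
    intro T hT a ha b hb hab
    rw [← hg a (hT ha), ← hg b (hT hb), hab]
  have hsum : ∀ T : Finset ι, T ⊆ I → ∀ F : ι → ℝ, ∑ j ∈ T.image f, F (g j) = ∑ i ∈ T, F i := by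
    intro T hT F
    rw [Finset.sum_image (hinj T hT)]
    exact Finset.sum_congr rfl fun i hi => by rw [hg i (hT hi)]
  have hcard : ∀ T : Finset ι, T ⊆ I → (T.image f).card = T.card := fun T hT =>
    Finset.card_image_of_injOn (hinj T hT)
  have hmem : ∀ T : Finset ι, T ⊆ I → ∀ j ∈ T.image f, g j ∈ T := by
    intro T hT j hj
    obtain ⟨i, hi, rfl⟩ := Finset.mem_image.1 hj
    rw [hg i (hT hi)]; exact hi
  refine ⟨I.image f, J.image f, fun j => w (g j), fun j => t (g j), fun j => n (g j), ?_, ?_⟩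
  · refine ⟨Finset.image_subset_image sub, fun j hj => nonneg _ (hmem I subset_rfl j hj),
      fun j hj => npos _ (hmem J sub j hj), fun j hj => int _ (hmem J sub j hj),
      fun j hj => nle _ (hmem J sub j hj), ?_, ?_, ?_, ?_, ?_, ?_, ?_⟩
    · refine le_trans ?_ card
      have h1 : (I.image f) \ (J.image f) ⊆ (I \ J).image f := by
        intro j hj
        rw [Finset.mem_sdiff] at hj
        obtain ⟨i, hi, rfl⟩ := Finset.mem_image.1 hj.1
        refine Finset.mem_image.2 ⟨i, Finset.mem_sdiff.2 ⟨hi, fun h => hj.2 ?_⟩, rfl⟩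
        exact Finset.mem_image_of_mem f h
      have h2 := (Finset.card_le_card h1).trans (Finset.card_image_le)
      exact_mod_cast h2
    · rw [hcard J sub]; exact cardf
    · rw [hsum I subset_rfl]; exact total
    · rw [hsum J sub]; exact totalf
    · rw [hsum J sub (fun i => w i / n i)]; exact rad
    · refine le_trans ?_ mul
      have h1 : (J.image f).filter (fun j => t (g j) ≠ 0) ⊆ (J.filter (fun v => t v ≠ 0)).image f := by
        intro j hj
        rw [Finset.mem_filter] at hj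
        obtain ⟨i, hi, rfl⟩ := Finset.mem_image.1 hj.1
        rw [hg i (sub hi)] at hj
        exact Finset.mem_image_of_mem f (Finset.mem_filter.2 ⟨hi, hj.2⟩)
      have h2 := (Finset.card_le_card h1).trans (Finset.card_image_le)
      exact_mod_cast h2
    · intro k hk
      rw [hsum I subset_rfl (fun i => w i * B2 (k * t i))]; exact main k hk
  · intro E hE j hj
    exact exps E hE _ (hmem J sub j hj)

/-- local package at a place of a number field -/
lemma kmt_local (hLB : ST_KLB) (hLS : ST_KLS) (hFP : ST_KFP) (K : Type) [Field K] [NumberField K]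
    (v : FinitePlace K) : ∃ C : ℝ, 0 ≤ C ∧ ∀ A B : K, dsc A B ≠ 0 →
    ∀ x y : ℕ → K, GSeq (0 : K) A B x y → ∀ ε : ℝ, ε = (open Classical in
      if v 2 = 1 ∧ v 3 = 1 then 0 else C) →
    ∃ (w t : ℝ) (n : ℕ) (U : ℕ → ℝ), 0 ≤ w ∧ |w - dl (fun x : K => v x) A B| ≤ ε ∧ 1 ≤ n ∧
    (∃ a : ℤ, (n : ℝ) * t = a) ∧ (w ≠ 0 → n * lq v ≤ w) ∧ (w = 0 → n = 1 ∧ t = 0) ∧
    (v 2 = 1 → v 3 = 1 → t ≠ 0 → IsMul (fun x : K => v x) A B) ∧
    (∀ k : ℕ, 1 ≤ k → 4 * U k - ε ≤ U (2 * k) + Real.log (v (4 * cu A B (x k)))) ∧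
    (∃ C : ℝ, ∀ k : ℕ, 1 ≤ k → U k ≤ Real.log (max (v (x k)) 1) + C) ∧
    (∀ k : ℕ, 1 ≤ k → w * B2 (k * t) + 1 / 6 * Real.log (v (dsc A B)) - ε ≤ U (12 * k)) := by
  obtain ⟨V, hV, hq⟩ := hFP K v
  have hfun : V.nr = fun x : K => v x := funext hV
  have hlq : lq v = Real.log V.q := by rw [lq, hq]
  obtain ⟨C, hC, hloc⟩ := hLS K V
  refine ⟨C, hC, ?_⟩
  intro A B hD x y hg ε hε
  classical
  by_cases h6 : v 2 = 1 ∧ v 3 = 1
  · have hε0 : ε = 0 := by rw [hε, if_pos h6]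
    have h2 : V.ord 2 = 0 := (V.nr_eq_one_iff (by norm_num)).1 (by rw [hV]; exact h6.1)
    have h3 : V.ord 3 = 0 := (V.nr_eq_one_iff (by norm_num)).1 (by rw [hV]; exact h6.2)
    obtain ⟨t, n, U, h0, hn, hint, hle, hmul, hU1, hU2, hU3⟩ := hLB K V h2 h3 A B hD x y hg
    rw [hfun] at h0 hle hmul hU3
    simp only [hV] at hU1 hU2 hU3
    subst hε0
    by_cases hdl : dl (fun x : K => v x) A B = 0
    · refine ⟨0, 0, 1, U, le_rfl, by rw [hdl]; simp, le_rfl, ⟨0, by simp⟩, fun h => absurd rfl h,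
        fun _ => ⟨rfl, rfl⟩, fun _ _ h => absurd rfl h, ?_, hU2, ?_⟩
      · intro k hk; have := hU1 k hk; linarith
      · intro k hk; have := hU3 k hk; rw [hdl] at this; linarith
    · refine ⟨dl (fun x : K => v x) A B, t, n, U, h0, by simp, hn, hint,
        fun h => by rw [hlq]; exact hle h, fun h => absurd h hdl, fun _ _ h => hmul h, ?_, hU2, ?_⟩
      · intro k hk; have := hU1 k hk; linarith
      · intro k hk; have := hU3 k hk; linarith
  · have hε0 : ε = C := by rw [hε, if_neg h6]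
    obtain ⟨w, t, n, U, h0, hw, hn, hint, hle, hU1, hU2, hU3⟩ := hloc A B hD x y hg
    rw [hfun] at hw
    simp only [hV] at hU1 hU2 hU3
    rw [hε0]
    by_cases hw0 : w = 0
    · refine ⟨0, 0, 1, U, le_rfl, by rw [← hw0]; exact hw, le_rfl, ⟨0, by simp⟩,
        fun h => absurd rfl h, fun _ => ⟨rfl, rfl⟩, fun h2 h3 => absurd ⟨h2, h3⟩ h6, hU1, hU2, ?_⟩
      intro k hk; have := hU3 k hk; rw [hw0] at this; linarith
    · exact ⟨w, t, n, U, h0, hw, hn, hint, fun h => by rw [hlq]; exact hle h,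
        fun h => absurd h hw0, fun h2 h3 => absurd ⟨h2, h3⟩ h6, hU1, hU2, hU3⟩

/-- archimedean package -/
lemma kmt_arch (hCX : ST_CX) : ∃ C₀ : ℝ, 0 ≤ C₀ ∧ ∀ (K : Type) [Field K] [NumberField K]
    (w : InfinitePlace K) (A B : K), dsc A B ≠ 0 → ∀ x y : ℕ → K, GSeq (0 : K) A B x y →
    ∃ (U : ℕ → ℝ) (τ : ℝ),
    (∀ k : ℕ, 1 ≤ k → 4 * U k - C₀ ≤ U (2 * k) + Real.log (w (4 * cu A B (x k)))) ∧
    (∃ C : ℝ, ∀ k : ℕ, 1 ≤ k → U k ≤ Real.log (max (w (x k)) 1) + C) ∧
    (∀ k : ℕ, 1 ≤ k → 1 / 6 * Real.log (w (dsc A B))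
      + max 0 (Real.log (w (6912 * A ^ 3 / dsc A B))) * B2 (k * τ) - C₀ ≤ U k) := by
  obtain ⟨C₀, hC₀, h⟩ := hCX
  refine ⟨C₀, hC₀, ?_⟩
  intro K _ _ w A B hD x y hg
  have hg' := kmt_map w.embedding hg
  have hn : ∀ z : K, ‖w.embedding z‖ = w z := fun z => by
    rw [InfinitePlace.norm_embedding_eq]
  have hD' : dsc (w.embedding A) (w.embedding B) ≠ 0 := by
    rw [kmt_map_dsc]; exact (map_ne_zero _).2 hD
  obtain ⟨U, τ, h1, ⟨C, h2⟩, h3⟩ := h (w.embedding A) (w.embedding B) hD' _ _ hg'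
  refine ⟨U, τ, ?_, ⟨C, ?_⟩, ?_⟩
  · intro k hk
    have := h1 k hk
    rw [kmt_map_cu, hn] at this
    exact this
  · intro k hk
    have := h2 k hk
    rw [hn] at this
    exact this
  · intro k hk
    have := h3 k hk
    have e1 : (6912 * w.embedding A ^ 3 / dsc (w.embedding A) (w.embedding B)) =
        w.embedding (6912 * A ^ 3 / dsc A B) := by
      rw [kmt_map_dsc]; simp [map_ofNat]
    rw [e1, kmt_map_dsc, hn, hn] at this
    exact this

lemma kmt_log_two_le_lq {K : Type} [Field K] [NumberField K] (v : FinitePlace K) :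
    Real.log 2 ≤ lq v := by
  unfold lq
  apply Real.log_le_log (by norm_num)
  have h := HeightOneSpectrum.one_lt_absNorm v.maximalIdeal
  have h2 : 2 ≤ Ideal.absNorm v.maximalIdeal.asIdeal := h
  exact_mod_cast h2

end Pool.Agent.Helper42.LK
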