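import Mathlib

open NumberField

namespace Pool.Agent.Helper42.LK

/-- the curve `y ^ 2 = x ^ 3 + A x + B` over a field -/
def ECK {K : Type} [Field K] (A B : K) : WeierstrassCurve K := ⟨0, 0, 0, A, B⟩

/-- logarithmic Weil height of the `x`-coordinate of a point, relative to `K`
(`[K : ℚ]` times the absolute logarithmic height), `0` at the origin -/
noncomputable def hxK {K : Type} [Field K] [NumberField K] {A B : K} :
    (ECK A B).toAffine.Point → ℝ
  | .zero => 0
  | .some x _ _ => Height.logHeight₁ x

/-- `- log` of the absolute value of the minimal discriminant at the place with absolute value `N`: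
the infimum of `- log N (D')` over all integral equations `(A', B') = (u ^ 4 A, u ^ 6 B)` -/
noncomputable def dl {F : Type} [Field F] (N : F → ℝ) (A B : F) : ℝ :=
  sInf {r : ℝ | ∃ u : F, u ≠ 0 ∧ N (u ^ 4 * A) ≤ 1 ∧ N (u ^ 6 * B) ≤ 1 ∧
    r = -Real.log (N (u ^ 12 * (4 * A ^ 3 + 27 * B ^ 2)))}

/-- multiplicative reduction: an integral equation `(A', B') = (u ^ 4 A, u ^ 6 B)` with `A'` a unit
and `D'` not a unit -/
def IsMul {F : Type} [Field F] (N : F → ℝ) (A B : F) : Prop :=
  ∃ u : F, N (u ^ 4 * A) = 1 ∧ N (u ^ 6 * B) ≤ 1 ∧ N (u ^ 12 * (4 * A ^ 3 + 27 * B ^ 2)) < 1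

/-- logarithm of the norm of the prime ideal of a finite place -/
noncomputable def lq {K : Type} [Field K] [NumberField K] (v : FinitePlace K) : ℝ :=
  Real.log (Ideal.absNorm v.maximalIdeal.asIdeal)

/-- logarithm of the norm of the minimal discriminant ideal -/
noncomputable def LD {K : Type} [Field K] [NumberField K] (A B : K) : ℝ :=
  ∑ᶠ v : FinitePlace K, dl (fun x : K => v x) A B

open Classical in
/-- logarithm of the norm of the product of the primes that divide the minimal discriminant -/
noncomputable def LR {K : Type} [Field K] [NumberField K] (A B : K) : ℝ :=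
  ∑ᶠ v : FinitePlace K, if 0 < dl (fun x : K => v x) A B then lq v else 0

/-- number of finite places of multiplicative reduction -/
noncomputable def mK {K : Type} [Field K] [NumberField K] (A B : K) : ℕ :=
  {v : FinitePlace K | IsMul (fun x : K => v x) A B}.ncard

/-- size of the curve: log of the norm of the minimal discriminant plus height of `j` -/
noncomputable def HK {K : Type} [Field K] [NumberField K] (A B : K) : ℝ :=
  LD A B + Height.logHeight₁ (6912 * A ^ 3 / (4 * A ^ 3 + 27 * B ^ 2))

end Pool.Agent.Helper42.LK
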