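import Pool.Agent.Helper42.LS.Defs
import Pool.Agent.Helper42.LK.Basic

open Filter Topology NumberField

namespace Pool.Agent.Helper42.LK

open Pool.Agent.Helper42.LS

/-- a discrete valuation, with the size `q` of the residue field -/
structure DV (F : Type) [Field F] where
  /-- the valuation (`0` at `0`) -/
  ord : F → ℤ
  /-- base of the absolute value -/
  q : ℝ
  one_lt_q : 1 < q
  ord_zero : ord 0 = 0
  ord_mul : ∀ a b : F, a ≠ 0 → b ≠ 0 → ord (a * b) = ord a + ord b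
  ord_add : ∀ a b : F, a ≠ 0 → b ≠ 0 → a + b ≠ 0 → min (ord a) (ord b) ≤ ord (a + b)
  unif : ∃ p : F, ord p = 1

namespace DV

variable {F : Type} [Field F] (v : DV F)

open Classical in
/-- the absolute value -/
noncomputable def nr (x : F) : ℝ := if x = 0 then 0 else v.q ^ (-v.ord x)

lemma q_pos : 0 < v.q := lt_trans one_pos v.one_lt_q

lemma log_q_pos : 0 < Real.log v.q := Real.log_pos v.one_lt_q

lemma ord_one : v.ord 1 = 0 := by
  have := v.ord_mul 1 1 one_ne_zero one_ne_zero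
  rw [mul_one] at this
  omega

lemma ord_neg_one : v.ord (-1) = 0 := by
  have h := v.ord_mul (-1) (-1) (neg_ne_zero.2 one_ne_zero) (neg_ne_zero.2 one_ne_zero)
  have h1 : ((-1 : F)) * (-1) = 1 := by ring
  rw [h1, v.ord_one] at h
  omega

lemma ord_neg (a : F) : v.ord (-a) = v.ord a := by
  by_cases ha : a = 0
  · rw [ha, neg_zero]
  · have h := v.ord_mul (-1) a (neg_ne_zero.2 one_ne_zero) ha
    rw [neg_one_mul, v.ord_neg_one, zero_add] at h
    exact h

lemma ord_pow (a : F) (n : ℕ) : v.ord (a ^ n) = n * v.ord a := by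
  by_cases ha : a = 0
  · subst ha
    rcases Nat.eq_zero_or_pos n with h | h
    · rw [h, pow_zero, v.ord_one]; simp
    · rw [zero_pow (by omega), v.ord_zero]; simp
  · induction n with
    | zero => rw [pow_zero, v.ord_one]; simp
    | succ n ih => rw [pow_succ, v.ord_mul _ _ (pow_ne_zero _ ha) ha, ih]; push_cast; ring

lemma ord_inv (a : F) : v.ord a⁻¹ = -v.ord a := by
  by_cases ha : a = 0
  · rw [ha, inv_zero, v.ord_zero, neg_zero]
  · have h := v.ord_mul a a⁻¹ ha (inv_ne_zero ha)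
    rw [mul_inv_cancel₀ ha, v.ord_one] at h
    omega

lemma ord_div {a b : F} (ha : a ≠ 0) (hb : b ≠ 0) : v.ord (a / b) = v.ord a - v.ord b := by
  rw [div_eq_mul_inv, v.ord_mul _ _ ha (inv_ne_zero hb), v.ord_inv]; ring

lemma ord_zpow (a : F) (n : ℤ) : v.ord (a ^ n) = n * v.ord a := by
  rcases n with n | n
  · rw [Int.ofNat_eq_natCast, zpow_natCast, v.ord_pow]
  · rw [zpow_negSucc, v.ord_inv, v.ord_pow, Int.negSucc_eq]; push_cast; ring

/-- like `padicValRat.min_le_padicValRat_add` -/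
lemma min_le_ord_add {a b : F} (h : a + b ≠ 0) : min (v.ord a) (v.ord b) ≤ v.ord (a + b) := by
  by_cases ha : a = 0
  · subst ha; rw [zero_add]; exact min_le_right _ _
  by_cases hb : b = 0
  · subst hb; rw [add_zero]; exact min_le_left _ _
  exact v.ord_add a b ha hb h

lemma ord_add_of_lt {a b : F} (_hb : b ≠ 0) (_ha : a ≠ 0) (h : v.ord a < v.ord b) :
    v.ord (a + b) = v.ord a := by
  have hne : a + b ≠ 0 := by
    intro h0
    have : b = -a := by linear_combination h0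
    rw [this, v.ord_neg] at h
    exact lt_irrefl _ h
  have h1 := v.min_le_ord_add hne
  rw [min_eq_left h.le] at h1
  have h2 : min (v.ord (a + b)) (v.ord (-b)) ≤ v.ord (a + b + -b) :=
    v.min_le_ord_add (by rwa [add_neg_cancel_right])
  rw [add_neg_cancel_right, v.ord_neg] at h2
  rcases min_le_iff.1 h2 with h3 | h3 <;> omega

lemma nr_zero : v.nr 0 = 0 := by simp [nr]

lemma nr_of_ne {a : F} (h : a ≠ 0) : v.nr a = v.q ^ (-v.ord a) := by simp [nr, h]

lemma nr_pos {a : F} (h : a ≠ 0) : 0 < v.nr a := by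
  rw [v.nr_of_ne h]; exact zpow_pos v.q_pos _

lemma nr_nonneg (a : F) : 0 ≤ v.nr a := by
  by_cases h : a = 0
  · rw [h, v.nr_zero]
  · exact (v.nr_pos h).le

lemma nr_ne_zero {a : F} (h : a ≠ 0) : v.nr a ≠ 0 := (v.nr_pos h).ne'

lemma nr_eq_zero {a : F} : v.nr a = 0 ↔ a = 0 :=
  ⟨fun h => by by_contra h'; exact v.nr_ne_zero h' h, fun h => by rw [h, v.nr_zero]⟩

lemma nr_one : v.nr 1 = 1 := by rw [v.nr_of_ne one_ne_zero, v.ord_one]; simp

lemma nr_mul (a b : F) : v.nr (a * b) = v.nr a * v.nr b := by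
  by_cases ha : a = 0
  · rw [ha, zero_mul, v.nr_zero, zero_mul]
  by_cases hb : b = 0
  · rw [hb, mul_zero, v.nr_zero, mul_zero]
  rw [v.nr_of_ne ha, v.nr_of_ne hb, v.nr_of_ne (mul_ne_zero ha hb), v.ord_mul a b ha hb,
    neg_add, zpow_add₀ v.q_pos.ne']

lemma nr_pow (a : F) (n : ℕ) : v.nr (a ^ n) = v.nr a ^ n := by
  induction n with
  | zero => rw [pow_zero, pow_zero, v.nr_one]
  | succ n ih => rw [pow_succ, v.nr_mul, ih, pow_succ]

lemma nr_neg (a : F) : v.nr (-a) = v.nr a := by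
  by_cases ha : a = 0
  · rw [ha, neg_zero]
  · rw [v.nr_of_ne ha, v.nr_of_ne (neg_ne_zero.2 ha), v.ord_neg]

lemma nr_inv (a : F) : v.nr a⁻¹ = (v.nr a)⁻¹ := by
  by_cases ha : a = 0
  · rw [ha, inv_zero, v.nr_zero, inv_zero]
  · rw [v.nr_of_ne ha, v.nr_of_ne (inv_ne_zero ha), v.ord_inv, zpow_neg]

lemma nr_div (a b : F) : v.nr (a / b) = v.nr a / v.nr b := by
  rw [div_eq_mul_inv, v.nr_mul, v.nr_inv, div_eq_mul_inv]

lemma nr_zpow (a : F) (n : ℤ) : v.nr (a ^ n) = v.nr a ^ n := by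
  rcases n with n | n
  · rw [Int.ofNat_eq_natCast, zpow_natCast, v.nr_pow, zpow_natCast]
  · rw [zpow_negSucc, v.nr_inv, v.nr_pow, zpow_negSucc]

/-- comparison of absolute values and orders -/
lemma nr_le_zpow_iff {a : F} (ha : a ≠ 0) (n : ℤ) : v.nr a ≤ v.q ^ (-n) ↔ n ≤ v.ord a := by
  rw [v.nr_of_ne ha, zpow_le_zpow_iff_right₀ v.one_lt_q, neg_le_neg_iff]

lemma nr_eq_zpow_iff {a : F} (ha : a ≠ 0) (n : ℤ) : v.nr a = v.q ^ (-n) ↔ v.ord a = n := by
  rw [v.nr_of_ne ha, zpow_right_inj₀ v.q_pos v.one_lt_q.ne', neg_inj]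

lemma nr_le_one_iff {a : F} (ha : a ≠ 0) : v.nr a ≤ 1 ↔ 0 ≤ v.ord a := by
  have := v.nr_le_zpow_iff ha 0
  simpa using this

lemma nr_eq_one_iff {a : F} (ha : a ≠ 0) : v.nr a = 1 ↔ v.ord a = 0 := by
  have := v.nr_eq_zpow_iff ha 0
  simpa using this

lemma nr_lt_one_iff {a : F} (ha : a ≠ 0) : v.nr a < 1 ↔ 1 ≤ v.ord a := by
  rw [← not_le]
  have h : (1 : ℝ) = v.q ^ (-(0 : ℤ)) := by simp
  rw [v.nr_of_ne ha, h, zpow_le_zpow_iff_right₀ v.one_lt_q, neg_le_neg_iff]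
  omega

/-- ultrametric inequality -/
lemma nr_add_le (a b : F) : v.nr (a + b) ≤ max (v.nr a) (v.nr b) := by
  by_cases hab : a + b = 0
  · rw [hab, v.nr_zero]; exact le_max_of_le_left (v.nr_nonneg a)
  by_cases ha : a = 0
  · rw [ha, zero_add]; exact le_max_right _ _
  by_cases hb : b = 0
  · rw [hb, add_zero]; exact le_max_left _ _
  have h := v.ord_add a b ha hb hab
  rw [v.nr_of_ne hab, v.nr_of_ne ha, v.nr_of_ne hb]
  rcases min_le_iff.1 h with h1 | h1
  · exact le_max_of_le_left (zpow_le_zpow_right₀ v.one_lt_q.le (by omega))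
  · exact le_max_of_le_right (zpow_le_zpow_right₀ v.one_lt_q.le (by omega))

lemma nr_sub_le (a b : F) : v.nr (a - b) ≤ max (v.nr a) (v.nr b) := by
  rw [sub_eq_add_neg, ← v.nr_neg b]; exact v.nr_add_le a (-b)

lemma nr_add_eq_left {a b : F} (h : v.nr b < v.nr a) : v.nr (a + b) = v.nr a := by
  apply le_antisymm
  · have := v.nr_add_le a b
    rwa [max_eq_left h.le] at this
  · have h1 := v.nr_add_le (a + b) (-b)
    rw [add_neg_cancel_right, v.nr_neg] at h1
    rcases le_max_iff.1 h1 with h2 | h2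
    · exact h2
    · exact absurd h2 (not_le.2 h)

lemma nr_add_eq_right {a b : F} (h : v.nr a < v.nr b) : v.nr (a + b) = v.nr b := by
  rw [add_comm]; exact v.nr_add_eq_left h

lemma nr_natCast (n : ℕ) : v.nr (n : F) ≤ 1 := by
  induction n with
  | zero => rw [Nat.cast_zero, v.nr_zero]; exact zero_le_one
  | succ n ih =>
    push_cast
    exact (v.nr_add_le _ _).trans (max_le ih (by rw [v.nr_one]))

lemma nr_intCast (n : ℤ) : v.nr (n : F) ≤ 1 := by
  rcases Int.eq_nat_or_neg n with ⟨m, h | h⟩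
  · rw [h]; push_cast; exact v.nr_natCast m
  · rw [h]; push_cast; rw [v.nr_neg]; exact v.nr_natCast m

lemma ord_natCast (n : ℕ) : 0 ≤ v.ord (n : F) := by
  by_cases h : (n : F) = 0
  · rw [h, v.ord_zero]
  · exact (v.nr_le_one_iff h).1 (v.nr_natCast n)

lemma ord_intCast (n : ℤ) : 0 ≤ v.ord (n : F) := by
  by_cases h : (n : F) = 0
  · rw [h, v.ord_zero]
  · exact (v.nr_le_one_iff h).1 (v.nr_intCast n)

lemma nr_ofNat (n : ℕ) [n.AtLeastTwo] : v.nr (OfNat.ofNat n : F) ≤ 1 := by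
  have := v.nr_natCast n
  rwa [← Nat.cast_ofNat (n := n)]

lemma ord_ofNat (n : ℕ) [n.AtLeastTwo] : 0 ≤ v.ord (OfNat.ofNat n : F) := by
  have := v.ord_natCast n
  rwa [← Nat.cast_ofNat (n := n)]

lemma log_nr {a : F} (h : a ≠ 0) : Real.log (v.nr a) = -(v.ord a : ℝ) * Real.log v.q := by
  rw [v.nr_of_ne h, Real.log_zpow]; push_cast; ring

/-- numbers `2 ^ a * 3 ^ b` are units when `2` and `3` are -/
lemma ord_two_three [CharZero F] (h2 : v.ord 2 = 0) (h3 : v.ord 3 = 0) (a b : ℕ) :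
    v.ord ((2 : F) ^ a * 3 ^ b) = 0 := by
  rw [v.ord_mul _ _ (pow_ne_zero _ (by norm_num)) (pow_ne_zero _ (by norm_num)), v.ord_pow,
    v.ord_pow, h2, h3]; simp

lemma exists_unif : ∃ p : F, p ≠ 0 ∧ v.ord p = 1 ∧ v.nr p = v.q⁻¹ := by
  obtain ⟨p, hp⟩ := v.unif
  have hp0 : p ≠ 0 := by
    rintro rfl
    rw [v.ord_zero] at hp
    exact absurd hp (by norm_num)
  exact ⟨p, hp0, hp, by rw [v.nr_of_ne hp0, hp, zpow_neg, zpow_one]⟩

end DV

end Pool.Agent.Helper42.LK
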