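import Pool.Agent.Helper42.LK.DV

open Filter Topology NumberField

namespace Pool.Agent.Helper42.LK

open Pool.Agent.Helper42.LS

/-! ### finite places (ports of PA, PD, PM, PG, PS, AD of the LS project) -/

/-- component function -/
noncomputable def alpK {F : Type} [Field F] (v : DV F) (N : ℕ) (X : F) : ℝ :=
  open Classical in if X = 0 then (N : ℝ) / 2 else max 0 (min (v.ord X : ℝ) ((N : ℝ) / 2))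

/-- normalised potential -/
noncomputable def upK {F : Type} [Field F] (v : DV F) (N : ℕ) (X : F) : ℝ :=
  Real.log (max (v.nr X) 1) - alpK v N X * (N - alpK v N X) / N * Real.log v.q

/-- KPA : folded addition law -/
def ST_KPA : Prop := ∀ (F : Type) [Field F] [CharZero F] (v : DV F) (N : ℕ), 1 ≤ N →
  ∀ c d e : F, v.nr (4 * c) = 1 →
  v.nr d ≤ v.q ^ (-(N : ℤ)) → v.nr e = v.q ^ (-(N : ℤ)) → ∀ X1 X2 X3 X4 : F, X1 ≠ X2 →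
  (X3 + X4) * (X1 - X2) ^ 2 = 2 * ((X1 + X2) * (d + X1 * X2) + 2 * c * X1 * X2 + 2 * e) →
  X3 * X4 * (X1 - X2) ^ 2 = (X1 * X2 - d) ^ 2 - 4 * e * (X1 + X2 + c) →
  (0 < alpK v N X1 ∨ 0 < alpK v N X2) →
  (alpK v N X3 = |alpK v N X1 - alpK v N X2| ∧
      alpK v N X4 = min (alpK v N X1 + alpK v N X2) (N - (alpK v N X1 + alpK v N X2))) ∨
  (alpK v N X4 = |alpK v N X1 - alpK v N X2| ∧
      alpK v N X3 = min (alpK v N X1 + alpK v N X2) (N - (alpK v N X1 + alpK v N X2)))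

/-- KPD : folded duplication law and the equation for the potential -/
def ST_KPD : Prop := ∀ (F : Type) [Field F] [CharZero F] (v : DV F) (N : ℕ), 1 ≤ N →
  ∀ c d e : F, v.nr (4 * c) = 1 →
  v.nr d ≤ v.q ^ (-(N : ℤ)) → v.nr e = v.q ^ (-(N : ℤ)) → ∀ X X' : F,
  X ^ 3 + c * X ^ 2 + d * X + e ≠ 0 →
  X' * (4 * (X ^ 3 + c * X ^ 2 + d * X + e)) = (X ^ 2 - d) ^ 2 - 4 * e * (2 * X + c) →
  alpK v N X' = min (2 * alpK v N X) (N - 2 * alpK v N X) ∧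
  4 * upK v N X = upK v N X' + Real.log (v.nr (4 * (X ^ 3 + c * X ^ 2 + d * X + e)))

/-- KPM : multiplicative place -/
def ST_KPM : Prop := ∀ (F : Type) [Field F] [CharZero F] (v : DV F) (N : ℕ), 1 ≤ N →
  ∀ A B : F, dsc A B ≠ 0 →
  v.ord (6912 * A ^ 3 / dsc A B) = -(N : ℤ) → ∀ x y : ℕ → F, GSeq (0 : F) A B x y →
  ∃ (r a : ℤ) (U : ℕ → ℝ),
    v.ord (16 * dsc A B) = N + 6 * r ∧
    (∀ k : ℕ, 1 ≤ k → 4 * U k ≤ U (2 * k) + Real.log (v.nr (4 * cu A B (x k)))) ∧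
    (∃ C : ℝ, ∀ k : ℕ, 1 ≤ k → U k ≤ Real.log (max (v.nr (x k)) 1) + C) ∧
    (∀ k : ℕ, 1 ≤ k → N * Real.log v.q * (B2 (k * (a / (2 * N))) - 1 / 6) -
      r * Real.log v.q ≤ U k) ∧
    (v.ord 2 = 0 → v.ord 3 = 0 → v.nr A < 1 → ∀ k : ℕ, 1 ≤ k → 1 ≤ v.nr (x k) → 0 ≤ U k)

/-- KPG : residue characteristic not 2, 3, potentially good reduction -/
def ST_KPG : Prop := ∀ (F : Type) [Field F] [CharZero F] (v : DV F), v.ord 2 = 0 → v.ord 3 = 0 →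
  ∀ A B : F, dsc A B ≠ 0 →
  v.nr (6912 * A ^ 3) ≤ v.nr (dsc A B) → ∀ x y : ℕ → F, GSeq (0 : F) A B x y →
  ∃ U : ℕ → ℝ, (∀ k : ℕ, 1 ≤ k → 4 * U k ≤ U (2 * k) + Real.log (v.nr (4 * cu A B (x k)))) ∧
    (∃ C : ℝ, ∀ k : ℕ, 1 ≤ k → U k ≤ Real.log (max (v.nr (x k)) 1) + C) ∧
    (∀ k : ℕ, 1 ≤ k → 1 / 6 * Real.log (v.nr (dsc A B)) ≤ U k) ∧
    (∀ k : ℕ, 1 ≤ k → 1 ≤ v.nr (x k) → 0 ≤ U k)

/-- KPS : any place, potentially good reduction, constant depending on the place -/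
def ST_KPS : Prop := ∀ (F : Type) [Field F] [CharZero F] (v : DV F), ∃ C₀ : ℝ, 0 ≤ C₀ ∧
  ∀ A B : F, dsc A B ≠ 0 →
  v.nr (6912 * A ^ 3) ≤ v.nr (dsc A B) → ∀ x y : ℕ → F, GSeq (0 : F) A B x y →
  ∃ U : ℕ → ℝ, (∀ k : ℕ, 1 ≤ k → 4 * U k - C₀ ≤ U (2 * k) +
      Real.log (v.nr (4 * cu A B (x k)))) ∧
    (∃ C : ℝ, ∀ k : ℕ, 1 ≤ k → U k ≤ Real.log (max (v.nr (x k)) 1) + C) ∧
    (∀ k : ℕ, 1 ≤ k → 1 / 6 * Real.log (v.nr (dsc A B)) ≤ U k)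

/-- KAD : additive places of a minimal equation, `12 P` has non-singular reduction -/
def ST_KAD : Prop := ∀ (F : Type) [Field F] [CharZero F] (v : DV F), v.ord 2 = 0 → v.ord 3 = 0 →
  ∀ A B : F, dsc A B ≠ 0 → v.nr A < 1 → v.nr B < 1 →
  ¬ (v.nr A ≤ v.q ^ (-4 : ℤ) ∧ v.nr B ≤ v.q ^ (-6 : ℤ)) → ∀ x y : ℕ → F,
  GSeq (0 : F) A B x y → ∀ k : ℕ, 1 ≤ k → 1 ≤ v.nr (x (12 * k))

/-- KGO : good reduction, residue characteristic not 2 -/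
def ST_KGO : Prop := ∀ (F : Type) [Field F] [CharZero F] (v : DV F), v.nr 2 = 1 →
  ∀ A B : F, v.nr A ≤ 1 → v.nr B ≤ 1 → v.nr (dsc A B) = 1 → ∀ x y : ℕ → F,
  GSeq (0 : F) A B x y → ∀ k : ℕ, 1 ≤ k →
  4 * Real.log (max (v.nr (x k)) 1) ≤ Real.log (max (v.nr (x (2 * k))) 1) +
    Real.log (v.nr (4 * cu A B (x k)))

/-- KMN : minimal equation at a place -/
def ST_KMN : Prop := ∀ (F : Type) [Field F] [CharZero F] (v : DV F) (A B : F), dsc A B ≠ 0 →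
  ∃ u : F, u ≠ 0 ∧ v.nr (u ^ 4 * A) ≤ 1 ∧ v.nr (u ^ 6 * B) ≤ 1 ∧
    ¬ (v.nr (u ^ 4 * A) ≤ v.q ^ (-4 : ℤ) ∧ v.nr (u ^ 6 * B) ≤ v.q ^ (-6 : ℤ)) ∧
    dl v.nr A B = -Real.log (v.nr (dsc (u ^ 4 * A) (u ^ 6 * B))) ∧
    (∀ u' : F, u' ≠ 0 → v.nr (u' ^ 4 * A) ≤ 1 → v.nr (u' ^ 6 * B) ≤ 1 → v.nr u' ≤ v.nr u)

/-- KSC : rescaling of a sequence -/
def ST_KSC : Prop := ∀ (F : Type) [Field F] (A B u : F) (x y : ℕ → F), u ≠ 0 →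
  GSeq (0 : F) A B x y →
  GSeq (0 : F) (u ^ 4 * A) (u ^ 6 * B) (fun k => u ^ 2 * x k) (fun k => u ^ 3 * y k)

/-- KLB : local package, residue characteristic not 2, 3 -/
def ST_KLB : Prop := ∀ (F : Type) [Field F] [CharZero F] (v : DV F), v.ord 2 = 0 → v.ord 3 = 0 →
  ∀ A B : F, dsc A B ≠ 0 → ∀ x y : ℕ → F, GSeq (0 : F) A B x y →
  ∃ (t : ℝ) (n : ℕ) (U : ℕ → ℝ), 0 ≤ dl v.nr A B ∧ 1 ≤ n ∧ (∃ a : ℤ, (n : ℝ) * t = a) ∧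
    (dl v.nr A B ≠ 0 → n * Real.log v.q ≤ dl v.nr A B) ∧ (t ≠ 0 → IsMul v.nr A B) ∧
    (∀ k : ℕ, 1 ≤ k → 4 * U k ≤ U (2 * k) + Real.log (v.nr (4 * cu A B (x k)))) ∧
    (∃ C : ℝ, ∀ k : ℕ, 1 ≤ k → U k ≤ Real.log (max (v.nr (x k)) 1) + C) ∧
    (∀ k : ℕ, 1 ≤ k → dl v.nr A B * B2 (k * t) + 1 / 6 * Real.log (v.nr (dsc A B)) ≤ U (12 * k))

/-- KLS : local package, any place, constant depending on the place -/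
def ST_KLS : Prop := ∀ (F : Type) [Field F] [CharZero F] (v : DV F), ∃ C₀ : ℝ, 0 ≤ C₀ ∧
  ∀ A B : F, dsc A B ≠ 0 → ∀ x y : ℕ → F, GSeq (0 : F) A B x y →
  ∃ (w t : ℝ) (n : ℕ) (U : ℕ → ℝ), 0 ≤ w ∧ |w - dl v.nr A B| ≤ C₀ ∧ 1 ≤ n ∧
    (∃ a : ℤ, (n : ℝ) * t = a) ∧ (w ≠ 0 → n * Real.log v.q ≤ w) ∧
    (∀ k : ℕ, 1 ≤ k → 4 * U k - C₀ ≤ U (2 * k) + Real.log (v.nr (4 * cu A B (x k)))) ∧
    (∃ C : ℝ, ∀ k : ℕ, 1 ≤ k → U k ≤ Real.log (max (v.nr (x k)) 1) + C) ∧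
    (∀ k : ℕ, 1 ≤ k → w * B2 (k * t) + 1 / 6 * Real.log (v.nr (dsc A B)) - C₀ ≤ U (12 * k))

/-! ### complex places -/

/-- half the logarithmic distance of `s` from `0`, at the scale `κ` -/
noncomputable def fk (κ s : ℂ) : ℝ := max 0 (-Real.log (max ‖s‖ ‖κ‖)) / 2

/-- CID : identities for `S k = (Y k / Z k) ^ 2` -/
def ST_CID : Prop := ∀ κ : ℂ, κ ≠ 0 → ‖κ‖ ≤ 1 / 100 → ∀ Z Y : ℕ → ℂ,
  GSeq (-(2 + κ)) 1 0 Z Y → ∀ S : ℕ → ℂ, (∀ k : ℕ, S k = (Y k / Z k) ^ 2) →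
  (∀ k : ℕ, 1 ≤ k → Z k ≠ 0 ∧ S k ≠ 0 ∧ S k + κ ≠ 0 ∧ S k + 4 + κ ≠ 0 ∧
    Z (2 * k) * (4 * Y k ^ 2) = (Z k ^ 2 - 1) ^ 2 ∧
    S (2 * k) * (4 * S k * (S k + κ) * (S k + 4 + κ)) = (S k ^ 2 - κ * (4 + κ)) ^ 2) ∧
  (∀ k l : ℕ, 1 ≤ l → l < k → S k ≠ S l ∧
    (S (k + l) + S (k - l)) * (S k - S l) ^ 2 =
      2 * (S k + S l) * (S k * S l + κ * (4 + κ)) + 4 * (4 + 2 * κ) * (S k * S l) ∧
    S (k + l) * S (k - l) * (S k - S l) ^ 2 = (S k * S l - κ * (4 + κ)) ^ 2)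

/-- size of `s` at the scale `κ` -/
noncomputable def mk (κ s : ℂ) : ℝ := max ‖s‖ ‖κ‖

/-- CFAa : two small points -/
def ST_CFAa : Prop := ∃ C : ℝ, 1 ≤ C ∧ ∀ κ s₁ s₂ x y : ℂ, κ ≠ 0 → ‖κ‖ ≤ 1 / 100 → s₁ ≠ s₂ →
  (x + y) * (s₁ - s₂) ^ 2 =
    2 * (s₁ + s₂) * (s₁ * s₂ + κ * (4 + κ)) + 4 * (4 + 2 * κ) * (s₁ * s₂) →
  x * y * (s₁ - s₂) ^ 2 = (s₁ * s₂ - κ * (4 + κ)) ^ 2 →
  mk κ s₂ ≤ mk κ s₁ → mk κ s₁ ≤ 1 / 4 → mk κ y ≤ mk κ x →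
  mk κ s₂ / mk κ s₁ ≤ C * min 1 (mk κ x) ∧ min 1 (mk κ x) ≤ C * (mk κ s₂ / mk κ s₁) ∧
  (max (mk κ s₁ * mk κ s₂) ‖κ‖) ^ 2 / (mk κ s₁ * mk κ s₂) ≤ C * min 1 (mk κ y) ∧
  min 1 (mk κ y) ≤ C * ((max (mk κ s₁ * mk κ s₂) ‖κ‖) ^ 2 / (mk κ s₁ * mk κ s₂))

/-- CFAb : one point is not small -/
def ST_CFAb : Prop := ∃ C : ℝ, 1 ≤ C ∧ ∀ κ s₁ s₂ x y : ℂ, κ ≠ 0 → ‖κ‖ ≤ 1 / 100 → s₁ ≠ s₂ →
  (x + y) * (s₁ - s₂) ^ 2 =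
    2 * (s₁ + s₂) * (s₁ * s₂ + κ * (4 + κ)) + 4 * (4 + 2 * κ) * (s₁ * s₂) →
  x * y * (s₁ - s₂) ^ 2 = (s₁ * s₂ - κ * (4 + κ)) ^ 2 →
  1 / 4 < mk κ s₁ →
  min 1 (mk κ s₂) ≤ C * min 1 (mk κ x) ∧ min 1 (mk κ x) ≤ C * min 1 (mk κ s₂)

/-- CFA : folded addition law, up to a constant -/
def ST_CFA : Prop := ∃ C₀ : ℝ, ∀ κ s₁ s₂ x y : ℂ, κ ≠ 0 → ‖κ‖ ≤ 1 / 100 → s₁ ≠ s₂ →
  (x + y) * (s₁ - s₂) ^ 2 =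
    2 * (s₁ + s₂) * (s₁ * s₂ + κ * (4 + κ)) + 4 * (4 + 2 * κ) * (s₁ * s₂) →
  x * y * (s₁ - s₂) ^ 2 = (s₁ * s₂ - κ * (4 + κ)) ^ 2 →
  (|fk κ x - abs (fk κ s₁ - fk κ s₂)| ≤ C₀ ∧
    |fk κ y - min (fk κ s₁ + fk κ s₂) (-Real.log ‖κ‖ - (fk κ s₁ + fk κ s₂))| ≤ C₀) ∨
  (|fk κ y - abs (fk κ s₁ - fk κ s₂)| ≤ C₀ ∧
    |fk κ x - min (fk κ s₁ + fk κ s₂) (-Real.log ‖κ‖ - (fk κ s₁ + fk κ s₂))| ≤ C₀)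

/-- CFD : folded duplication law, up to a constant -/
def ST_CFD : Prop := ∃ C₀ : ℝ, ∀ κ s s' : ℂ, κ ≠ 0 → ‖κ‖ ≤ 1 / 100 → s ≠ 0 → s + κ ≠ 0 →
  s + 4 + κ ≠ 0 → s' * (4 * s * (s + κ) * (s + 4 + κ)) = (s ^ 2 - κ * (4 + κ)) ^ 2 →
  |fk κ s' - min (2 * fk κ s) (-Real.log ‖κ‖ - 2 * fk κ s)| ≤ C₀

/-- CP : inequality for the potential -/
def ST_CP : Prop := ∃ C₀ : ℝ, ∀ κ Z Y : ℂ, κ ≠ 0 → ‖κ‖ ≤ 1 / 100 → Z ≠ 0 → Y ≠ 0 →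
  Y ^ 2 = Z ^ 3 - (2 + κ) * Z ^ 2 + Z →
  4 * Real.log (max ‖Z‖ 1) - 2 * fk κ ((Y / Z) ^ 2) - C₀ ≤
    Real.log (max (‖Z ^ 2 - 1‖ ^ 2) ‖4 * Y ^ 2‖)

/-- FS1 : approximate folded homomorphisms lift to approximate homomorphisms, if there is an
element `g` far from `0` and from `W / 2` -/
def ST_FS1 : Prop := ∃ K : ℝ, 1 ≤ K ∧ ∀ (W C : ℝ), 0 < W → 0 ≤ C → ∀ f : ℤ → ℝ,
  (∀ k : ℤ, 0 ≤ f k ∧ f k ≤ W / 2) → f 0 = 0 → (∀ k : ℤ, f (-k) = f k) →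
  (∀ a b : ℤ,
    (|f (a - b) - abs (f a - f b)| ≤ C ∧ |f (a + b) - min (f a + f b) (W - (f a + f b))| ≤ C) ∨
    (|f (a + b) - abs (f a - f b)| ≤ C ∧ |f (a - b) - min (f a + f b) (W - (f a + f b))| ≤ C)) →
  (∃ g : ℤ, K * C < f g ∧ f g < W / 2 - K * C) →
  ∃ T : ℤ → ℝ, (∀ k : ℤ, T k = f k ∨ T k = -f k) ∧
    ∀ a b : ℤ, ∃ m : ℤ, |T (a + b) - T a - T b - m * W| ≤ K * C

/-- FST : stability of folded homomorphisms -/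
def ST_FST : Prop := ∃ K : ℝ, ∀ (W C : ℝ), 0 < W → 0 ≤ C → ∀ f : ℤ → ℝ,
  (∀ k : ℤ, 0 ≤ f k ∧ f k ≤ W / 2) → f 0 = 0 → (∀ k : ℤ, f (-k) = f k) →
  (∀ a b : ℤ,
    (|f (a - b) - abs (f a - f b)| ≤ C ∧ |f (a + b) - min (f a + f b) (W - (f a + f b))| ≤ C) ∨
    (|f (a + b) - abs (f a - f b)| ≤ C ∧ |f (a - b) - min (f a + f b) (W - (f a + f b))| ≤ C)) →
  ∃ τ : ℝ, ∀ k : ℕ, 1 ≤ k → |f k - W * nd (k * τ)| ≤ K * C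

/-- CS : large `j`, normalised -/
def ST_CS : Prop := ∃ C₀ : ℝ, ∀ κ : ℂ, κ ≠ 0 → ‖κ‖ ≤ 1 / 100 → ∀ Z Y : ℕ → ℂ,
  GSeq (-(2 + κ)) 1 0 Z Y →
  ∃ (U : ℕ → ℝ) (τ : ℝ),
    (∀ k : ℕ, 1 ≤ k → 4 * U k - C₀ ≤ U (2 * k) + Real.log ‖4 * Y k ^ 2‖) ∧
    (∀ k : ℕ, 1 ≤ k → U k ≤ Real.log (max ‖Z k‖ 1)) ∧
    (∀ k : ℕ, 1 ≤ k → (-Real.log ‖κ‖) * (B2 (k * τ) - 1 / 6) - C₀ ≤ U k)

/-- C0 : bounded `j` -/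
def ST_C0 : Prop := ∀ J₀ : ℝ, ∃ C₀ : ℝ, ∀ A B : ℂ, dsc A B ≠ 0 →
  ‖6912 * A ^ 3‖ ≤ J₀ * ‖dsc A B‖ → ∀ X Y : ℕ → ℂ, GSeq (0 : ℂ) A B X Y →
  ∃ U : ℕ → ℝ, (∀ k : ℕ, 1 ≤ k → 4 * U k - C₀ ≤ U (2 * k) + Real.log ‖4 * Y k ^ 2‖) ∧
    (∃ C : ℝ, ∀ k : ℕ, 1 ≤ k → U k ≤ Real.log (max ‖X k‖ 1) + C) ∧
    (∀ k : ℕ, 1 ≤ k → 1 / 6 * Real.log ‖dsc A B‖ - C₀ ≤ U k)

/-- CR : normal form for large `j` -/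
def ST_CR : Prop := ∃ J₀ : ℝ, 1 ≤ J₀ ∧ ∀ A B : ℂ, dsc A B ≠ 0 →
  J₀ * ‖dsc A B‖ < ‖6912 * A ^ 3‖ →
  ∃ e μ κ : ℂ, μ ≠ 0 ∧ e ^ 3 + A * e + B = 0 ∧ μ ^ 2 = 3 * e ^ 2 + A ∧ ‖κ‖ ≤ 1 / 100 ∧ κ ≠ 0 ∧
    3 * e = -(2 + κ) * μ ∧ dsc A B = -(κ * (4 + κ)) * μ ^ 6

/-- CX : archimedean places, final form -/
def ST_CX : Prop := ∃ C₀ : ℝ, 0 ≤ C₀ ∧ ∀ A B : ℂ, dsc A B ≠ 0 → ∀ x y : ℕ → ℂ,
  GSeq (0 : ℂ) A B x y →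
  ∃ (U : ℕ → ℝ) (τ : ℝ),
    (∀ k : ℕ, 1 ≤ k → 4 * U k - C₀ ≤ U (2 * k) + Real.log ‖4 * cu A B (x k)‖) ∧
    (∃ C : ℝ, ∀ k : ℕ, 1 ≤ k → U k ≤ Real.log (max ‖x k‖ 1) + C) ∧
    (∀ k : ℕ, 1 ≤ k → 1 / 6 * Real.log ‖dsc A B‖
      + max 0 (Real.log ‖6912 * A ^ 3 / dsc A B‖) * B2 (k * τ) - C₀ ≤ U k)

/-! ### global part -/

/-- `e` is the limit of `h (x (2 ^ n * k P)) / 4 ^ n`, scaled correctly for every `k ≥ 1` -/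
def IsCanK {K : Type} [Field K] [NumberField K] (x : ℕ → K) (e : ℝ) : Prop :=
  ∀ k : ℕ, 1 ≤ k → Tendsto (fun n : ℕ => Height.logHeight₁ (x (k * 2 ^ n)) / 4 ^ n) atTop
    (𝓝 ((k : ℝ) ^ 2 * e))

/-- KFP : finite places are discrete valuations -/
def ST_KFP : Prop := ∀ (K : Type) [Field K] [NumberField K] (v : FinitePlace K),
  ∃ V : DV K, (∀ x : K, V.nr x = v x) ∧ V.q = Ideal.absNorm v.maximalIdeal.asIdeal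

/-- KGL : group law -/
def ST_KGL : Prop := ∀ (K : Type) [Field K] [CharZero K] [DecidableEq K] (A B : K),
  ∀ P : (ECK A B).toAffine.Point,
  (∀ n : ℕ, 0 < n → n • P ≠ 0) → ∃ x y : ℕ → K, GSeq (0 : K) A B x y ∧
    ∀ k : ℕ, 1 ≤ k → ∃ h, k • P = WeierstrassCurve.Affine.Point.some (x k) (y k) h

/-- KPL : parallelogram law and duplication, up to constants -/
def ST_KPL : Prop := ∀ (K : Type) [Field K] [NumberField K] (A B : K), dsc A B ≠ 0 →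
  ∃ C : ℝ, ∀ x y : ℕ → K, GSeq (0 : K) A B x y →
    (∀ k l : ℕ, 1 ≤ l → l < k →
      |Height.logHeight₁ (x (k + l)) + Height.logHeight₁ (x (k - l)) -
        2 * Height.logHeight₁ (x k) - 2 * Height.logHeight₁ (x l)| ≤ C) ∧
    (∀ k : ℕ, 1 ≤ k → |Height.logHeight₁ (x (2 * k)) - 4 * Height.logHeight₁ (x k)| ≤ C)

/-- KCH : canonical height -/
def ST_KCH : Prop := ∀ (K : Type) [Field K] [NumberField K] (A B : K), dsc A B ≠ 0 →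
  ∃ C : ℝ, ∀ x y : ℕ → K, GSeq (0 : K) A B x y → ∃ e : ℝ, IsCanK x e ∧
    |e - Height.logHeight₁ (x 1)| ≤ C

/-- KNC : positive lower bound on a fixed curve (Northcott) -/
def ST_KNC : Prop := ∀ (K : Type) [Field K] [NumberField K] (A B : K), dsc A B ≠ 0 →
  ∃ c : ℝ, 0 < c ∧ ∀ (x y : ℕ → K) (e : ℝ), GSeq (0 : K) A B x y → IsCanK x e → c ≤ e

/-- KPOT : sum of local potentials -/
def ST_KPOT : Prop := ∀ (K : Type) [Field K] [NumberField K] (x c : ℕ → K) (e : ℝ),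
  IsCanK x e → (∀ k : ℕ, 1 ≤ k → c k ≠ 0) → ∀ (S : Finset (FinitePlace K))
  (U : FinitePlace K → ℕ → ℝ) (D : FinitePlace K → ℝ) (Ui : InfinitePlace K → ℕ → ℝ) (C₀ : ℝ),
  (∀ v ∈ S, ∀ k : ℕ, 1 ≤ k → 4 * U v k - D v ≤ U v (2 * k) + Real.log (v (c k))) →
  (∀ v : FinitePlace K, v ∉ S → ∀ k : ℕ, 1 ≤ k →
    4 * Real.log (max (v (x k)) 1) ≤ Real.log (max (v (x (2 * k))) 1) + Real.log (v (c k))) →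
  (∀ w : InfinitePlace K, ∀ k : ℕ, 1 ≤ k → 4 * Ui w k - C₀ ≤ Ui w (2 * k) + Real.log (w (c k))) →
  (∀ v ∈ S, ∃ C : ℝ, ∀ k : ℕ, 1 ≤ k → U v k ≤ Real.log (max (v (x k)) 1) + C) →
  (∀ w : InfinitePlace K, ∃ C : ℝ, ∀ k : ℕ, 1 ≤ k → Ui w k ≤ Real.log (max (w (x k)) 1) + C) →
  ∀ k : ℕ, 1 ≤ k → ∑ v ∈ S, U v k + ∑ w : InfinitePlace K, (w.mult : ℝ) * Ui w k
    - (∑ v ∈ S, D v + Module.finrank ℚ K * C₀) / 3 ≤ (k : ℝ) ^ 2 * e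

/-- KMK : Minkowski's theorem for prescribed sizes at all places -/
def ST_KMK : Prop := ∀ (K : Type) [Field K] [NumberField K], ∃ C : ℝ,
  ∀ (a : FinitePlace K → K) (R : InfinitePlace K → ℝ), (∀ v, a v ≠ 0) →
  {v : FinitePlace K | v (a v) ≠ 1}.Finite → (∀ w, 0 < R w) →
  ∃ (u : K) (l : ℝ), u ≠ 0 ∧ 0 < l ∧ (∀ v : FinitePlace K, v u ≤ v (a v)) ∧
    (∀ w : InfinitePlace K, w u ≤ l / R w) ∧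
    Module.finrank ℚ K * Real.log l ≤ C + ∑ w : InfinitePlace K, (w.mult : ℝ) * Real.log (R w)
      - ∑ᶠ v : FinitePlace K, Real.log (v (a v))

/-- KRM : reduced global equation -/
def ST_KRM : Prop := ∀ (K : Type) [Field K] [NumberField K], ∃ C : ℝ, ∀ A B : K, dsc A B ≠ 0 →
  ∃ (u : K) (l : ℝ), u ≠ 0 ∧ 0 < l ∧
    (∀ v : FinitePlace K, v (u ^ 4 * A) ≤ 1 ∧ v (u ^ 6 * B) ≤ 1) ∧
    (∀ w : InfinitePlace K, w (u ^ 4 * A) ≤ l ^ 4 ∧ w (u ^ 6 * B) ≤ l ^ 6) ∧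
    12 * Module.finrank ℚ K * Real.log l ≤ HK A B + C

/-- KSM : curves of bounded size -/
def ST_KSM : Prop := ∀ (K : Type) [Field K] [NumberField K] (H₀ : ℝ), ∃ c : ℝ, 0 < c ∧
  ∀ A B : K, dsc A B ≠ 0 → HK A B ≤ H₀ → ∀ (x y : ℕ → K) (e : ℝ), GSeq (0 : K) A B x y →
    IsCanK x e → c ≤ e

/-- KDF : the local discriminants and the height of `j` -/
def ST_KDF : Prop := ∀ (K : Type) [Field K] [NumberField K] (A B : K), dsc A B ≠ 0 →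
  {v : FinitePlace K | ¬ (v 2 = 1 ∧ v 3 = 1 ∧ v A ≤ 1 ∧ v B ≤ 1 ∧ v (dsc A B) = 1)}.Finite ∧
  (∀ v : FinitePlace K, 0 ≤ dl (fun x : K => v x) A B ∧
    (dl (fun x : K => v x) A B ≠ 0 → lq v ≤ dl (fun x : K => v x) A B) ∧
    Real.log (max (v (6912 * A ^ 3 / dsc A B)) 1) ≤ dl (fun x : K => v x) A B ∧
    (v 2 = 1 → v 3 = 1 → IsMul (fun x : K => v x) A B → 0 < dl (fun x : K => v x) A B) ∧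
    (v 2 = 1 → v 3 = 1 → v A ≤ 1 → v B ≤ 1 → v (dsc A B) = 1 →
      dl (fun x : K => v x) A B = 0)) ∧
  {v : FinitePlace K | IsMul (fun x : K => v x) A B}.Finite ∧
  (∑ w : InfinitePlace K, (w.mult : ℝ) *
    max 0 (Real.log (w (6912 * A ^ 3 / dsc A B)))) + LD A B ≤ HK A B ∧
  HK A B ≤ 2 * LD A B + ∑ w : InfinitePlace K, (w.mult : ℝ) *
    max 0 (Real.log (w (6912 * A ^ 3 / dsc A B)))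

/-- summary of the master inequality -/
structure MSum (C₀ H L R : ℝ) (m : ℕ) (e : ℝ) (V Vf : Finset ℕ) (w t : ℕ → ℝ) (n : ℕ → ℕ) :
    Prop where
  sub : Vf ⊆ V
  nonneg : ∀ v ∈ V, 0 ≤ w v
  npos : ∀ v ∈ Vf, 1 ≤ n v
  int : ∀ v ∈ Vf, ∃ a : ℤ, (n v : ℝ) * t v = a
  nle : ∀ v ∈ Vf, w v ≠ 0 → n v * Real.log 2 ≤ w v
  card : ((V \ Vf).card : ℝ) ≤ C₀
  cardf : (Vf.card : ℝ) * Real.log 2 ≤ R + C₀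
  total : |∑ v ∈ V, w v - H| ≤ C₀
  totalf : |∑ v ∈ Vf, w v - L| ≤ C₀
  rad : R - C₀ ≤ ∑ v ∈ Vf, w v / n v
  mul : ((Vf.filter (fun v => t v ≠ 0)).card : ℝ) ≤ m + C₀
  main : ∀ k : ℕ, 1 ≤ k → ∑ v ∈ V, w v * B2 (k * t v) - C₀ ≤ 144 * (k : ℝ) ^ 2 * e

/-- KMT : master inequality -/
def ST_KMT : Prop := ∀ (K : Type) [Field K] [NumberField K], ∃ C₀ : ℝ, 0 ≤ C₀ ∧
  ∀ A B : K, dsc A B ≠ 0 → ∀ (x y : ℕ → K) (e : ℝ), GSeq (0 : K) A B x y → IsCanK x e →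
  0 ≤ LD A B ∧ 0 ≤ LR A B ∧ LR A B ≤ LD A B ∧ (mK A B : ℝ) * Real.log 2 ≤ LD A B + C₀ ∧
  ∃ H : ℝ, LD A B ≤ H ∧ H ≤ HK A B ∧ HK A B ≤ 2 * H ∧
  ∃ (V Vf : Finset ℕ) (w t : ℕ → ℝ) (n : ℕ → ℕ),
    MSum C₀ H (LD A B) (LR A B) (mK A B) e V Vf w t n ∧
    ∀ E : ℝ, (∀ v : FinitePlace K, dl (fun x : K => v x) A B ≤ E * lq v) →
      ∀ v ∈ Vf, (n v : ℝ) ≤ E + C₀

end Pool.Agent.Helper42.LK
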