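import Pool.Agent.Helper42.LK.KLB

open Filter Topology NumberField

namespace Pool.Agent.Helper42.LK

open Pool.Agent.Helper42.LS

lemma kls_ge {F : Type} [Field F] (v : DV F) {a : F} {n : ℤ} (h : a = 0 ∨ n ≤ v.ord a) :
    v.nr a ≤ v.q ^ (-n) := by
  rcases h with h | h
  · rw [h, v.nr_zero]; exact (zpow_pos v.q_pos _).le
  · by_cases ha : a = 0
    · rw [ha, v.nr_zero]; exact (zpow_pos v.q_pos _).le
    · exact (v.nr_le_zpow_iff ha n).2 h

lemma kls_ord_ge {F : Type} [Field F] (v : DV F) {a b : F} {n : ℤ} (hab : a + b ≠ 0)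
    (ha : a = 0 ∨ n ≤ v.ord a) (hb : b = 0 ∨ n ≤ v.ord b) : n ≤ v.ord (a + b) := by
  rcases ha with ha | ha
  · rcases hb with hb | hb
    · rw [ha, hb, add_zero] at hab; exact absurd rfl hab
    · rw [ha, zero_add]; exact hb
  · rcases hb with hb | hb
    · rw [hb, add_zero]; exact ha
    · exact (le_min ha hb).trans (v.min_le_ord_add hab)

/-- minimality: `A` divisible by a high power forces `B` not to be -/
lemma kls_min {F : Type} [Field F] [CharZero F] (v : DV F) {A B : F}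
    (hmin : ¬ (v.nr A ≤ v.q ^ (-4 : ℤ) ∧ v.nr B ≤ v.q ^ (-6 : ℤ)))
    (hA : A = 0 ∨ 4 + v.ord 3 ≤ v.ord A)
    (hD : dsc A B = 0 ∨ 12 + 3 * v.ord 3 ≤ v.ord (dsc A B)) : False := by
  have h30 : 0 ≤ v.ord 3 := v.ord_ofNat 3
  have h40 : 0 ≤ v.ord 4 := v.ord_ofNat 4
  have h27 : v.ord 27 = 3 * v.ord 3 := by
    have : (27 : F) = 3 ^ 3 := by norm_num
    rw [this, v.ord_pow]; rfl
  apply hmin
  constructor
  · apply kls_ge v
    rcases hA with h | h
    · exact Or.inl h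
    · exact Or.inr (by omega)
  · apply kls_ge v
    by_cases hB0 : B = 0
    · exact Or.inl hB0
    · right
      have h27B : 27 * B ^ 2 ≠ 0 := mul_ne_zero (by norm_num) (pow_ne_zero _ hB0)
      have e1 : 27 * B ^ 2 = dsc A B + -(4 * A ^ 3) := by unfold dsc; ring
      have h1 : 12 + 3 * v.ord 3 ≤ v.ord (27 * B ^ 2) := by
        rw [e1]
        apply kls_ord_ge v (by rw [← e1]; exact h27B) hD
        rcases hA with h | h
        · left; rw [h]; simp
        · right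
          by_cases hA0 : A = 0
          · rw [hA0] at h
            rw [v.ord_zero] at h
            omega
          · rw [v.ord_neg, v.ord_mul _ _ (by norm_num) (pow_ne_zero _ hA0), v.ord_pow]
            push_cast
            omega
      rw [v.ord_mul _ _ (by norm_num) (pow_ne_zero _ hB0), v.ord_pow, h27] at h1
      push_cast at h1
      omega

theorem st_KLS (hPM : ST_KPM) (hPS : ST_KPS) (hMN : ST_KMN) (hSC : ST_KSC) : ST_KLS := by
  intro F _ _ v
  obtain ⟨C₁, hC₁, hPS⟩ := hPS F v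
  have hlq := v.log_q_pos
  have h30 : 0 ≤ v.ord 3 := v.ord_ofNat 3
  have h6912 : 0 ≤ v.ord 6912 := v.ord_ofNat 6912
  have h160 : 0 ≤ v.ord 16 := v.ord_ofNat 16
  set C₂ : ℝ := ((v.ord 6912 + 3 * v.ord 3 + 12 + v.ord 16 : ℤ) : ℝ) * Real.log v.q with hC₂
  have hC₂0 : 0 ≤ C₂ := by
    apply mul_nonneg _ hlq.le
    have : (0 : ℤ) ≤ v.ord 6912 + 3 * v.ord 3 + 12 + v.ord 16 := by omega
    exact_mod_cast this
  refine ⟨C₁ + C₂, by positivity, ?_⟩
  intro A₀ B₀ hD₀ x₀ y₀ hg₀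
  obtain ⟨u, hu0, huA, huB, hmin, hdl, -⟩ := hMN F v A₀ B₀ hD₀
  have hg := hSC F A₀ B₀ u x₀ y₀ hu0 hg₀
  have hlogD := klb_log_dsc v hu0 hD₀
  have hD : dsc (u ^ 4 * A₀) (u ^ 6 * B₀) ≠ 0 := by
    rw [klb_dsc]; exact mul_ne_zero (pow_ne_zero _ hu0) hD₀
  -- a potential for the minimal equation suffices
  suffices hkey : ∃ (w t : ℝ) (n : ℕ) (U : ℕ → ℝ), 0 ≤ w ∧ |w - dl v.nr A₀ B₀| ≤ C₁ + C₂ ∧ 1 ≤ n ∧
      (∃ a : ℤ, (n : ℝ) * t = a) ∧ (w ≠ 0 → n * Real.log v.q ≤ w) ∧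
      (∀ k : ℕ, 1 ≤ k → 4 * U k - (C₁ + C₂) ≤ U (2 * k) +
        Real.log (v.nr (4 * cu (u ^ 4 * A₀) (u ^ 6 * B₀) (u ^ 2 * x₀ k)))) ∧
      (∃ C : ℝ, ∀ k : ℕ, 1 ≤ k → U k ≤ Real.log (max (v.nr (u ^ 2 * x₀ k)) 1) + C) ∧
      (∀ k : ℕ, 1 ≤ k → w * B2 (k * t) +
        1 / 6 * Real.log (v.nr (dsc (u ^ 4 * A₀) (u ^ 6 * B₀))) - (C₁ + C₂) ≤ U (12 * k)) by
    obtain ⟨w, t, n, U, h5, h6, h7, h8, h9, h10, h11, h12⟩ := hkey
    obtain ⟨h13, h14⟩ := klb_scale v hu0 hg₀ h10 h11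
    refine ⟨w, t, n, fun k => U k - 2 * Real.log (v.nr u), h5, h6, h7, h8, h9, h13, h14, ?_⟩
    intro k hk
    have := h12 k hk
    rw [hlogD] at this
    simp only
    linarith
  set A := u ^ 4 * A₀ with hA
  set B := u ^ 6 * B₀ with hB
  have hAint : v.nr A ≤ 1 := huA
  have hBint : v.nr B ≤ 1 := huB
  have hDint : v.nr (dsc A B) ≤ 1 := by
    unfold dsc
    refine (v.nr_add_le _ _).trans (max_le ?_ ?_)
    · rw [v.nr_mul, v.nr_pow]
      exact mul_le_one₀ (v.nr_ofNat 4) (pow_nonneg (v.nr_nonneg _) _)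
        (pow_le_one₀ (v.nr_nonneg _) hAint)
    · rw [v.nr_mul, v.nr_pow]
      exact mul_le_one₀ (v.nr_ofNat 27) (pow_nonneg (v.nr_nonneg _) _)
        (pow_le_one₀ (v.nr_nonneg _) hBint)
  have hordD : 0 ≤ v.ord (dsc A B) := (v.nr_le_one_iff hD).1 hDint
  have hdlD : dl v.nr A₀ B₀ = (v.ord (dsc A B) : ℝ) * Real.log v.q := by
    rw [hdl, v.log_nr hD]; ring
  by_cases hj : v.nr (6912 * A ^ 3) ≤ v.nr (dsc A B)
  · -- potentially good reduction
    obtain ⟨U, hU1, hU2, hU3⟩ := hPS A B hD hj _ _ hg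
    have hsmall : v.ord (dsc A B) ≤ v.ord 6912 + 3 * v.ord 3 + 12 := by
      by_contra hcon
      push Not at hcon
      apply kls_min v hmin
      · by_cases hA0 : A = 0
        · exact Or.inl hA0
        · right
          have hne : 6912 * A ^ 3 ≠ 0 := mul_ne_zero (by norm_num) (pow_ne_zero _ hA0)
          rw [v.nr_of_ne hne, v.nr_of_ne hD, zpow_le_zpow_iff_right₀ v.one_lt_q,
            v.ord_mul _ _ (by norm_num) (pow_ne_zero _ hA0), v.ord_pow] at hj
          push_cast at hj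
          omega
      · right; omega
    refine ⟨0, 0, 1, U, le_rfl, ?_, le_rfl, ⟨0, by simp⟩, fun h => absurd rfl h, ?_, hU2, ?_⟩
    · rw [zero_sub, abs_neg, hdlD, abs_of_nonneg (mul_nonneg (by exact_mod_cast hordD) hlq.le)]
      have : (v.ord (dsc A B) : ℝ) * Real.log v.q ≤ C₂ := by
        apply mul_le_mul_of_nonneg_right _ hlq.le
        exact_mod_cast (by omega : v.ord (dsc A B) ≤ v.ord 6912 + 3 * v.ord 3 + 12 + v.ord 16)
      linarith
    · intro k hk; have := hU1 k hk; linarith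
    · intro k hk
      have := hU3 (12 * k) (by omega)
      rw [zero_mul, zero_add]
      linarith
  · push Not at hj
    have hA0 : A ≠ 0 := by
      intro h
      rw [h] at hj
      simp only [ne_eq, OfNat.ofNat_ne_zero, not_false_eq_true, zero_pow, mul_zero,
        v.nr_zero] at hj
      exact absurd (v.nr_nonneg _) (not_le.2 hj)
    have hne : 6912 * A ^ 3 ≠ 0 := mul_ne_zero (by norm_num) (pow_ne_zero _ hA0)
    have hord : v.ord (6912 * A ^ 3) < v.ord (dsc A B) := by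
      rw [v.nr_of_ne hne, v.nr_of_ne hD, zpow_lt_zpow_iff_right₀ v.one_lt_q] at hj
      omega
    have hord2 : v.ord (6912 * A ^ 3) = v.ord 6912 + 3 * v.ord A := by
      rw [v.ord_mul _ _ (by norm_num) (pow_ne_zero _ hA0), v.ord_pow]; rfl
    have hordA : 0 ≤ v.ord A := (v.nr_le_one_iff hA0).1 hAint
    obtain ⟨N, hN⟩ : ∃ N : ℕ, v.ord (6912 * A ^ 3 / dsc A B) = -(N : ℤ) :=
      ⟨(-(v.ord (6912 * A ^ 3 / dsc A B))).toNat, by
        rw [v.ord_div hne hD, Int.toNat_of_nonneg (by omega)]; ring⟩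
    have hN' : (N : ℤ) = v.ord (dsc A B) - v.ord 6912 - 3 * v.ord A := by
      rw [v.ord_div hne hD] at hN; omega
    have hN1 : 1 ≤ N := by omega
    have hAlt : v.ord A < 4 + v.ord 3 := by
      by_contra hcon
      push Not at hcon
      exact kls_min v hmin (Or.inr hcon) (Or.inr (by omega))
    obtain ⟨r, a, U, hr, hU1, hU2, hU3, -⟩ := hPM F v N hN1 A B hD hN _ _ hg
    have hNR : (0 : ℝ) < N := by exact_mod_cast hN1
    refine ⟨N * Real.log v.q, 6 * a / N, N, U, by positivity, ?_, hN1,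
      ⟨6 * a, by push_cast; field_simp⟩, fun _ => le_rfl, ?_, hU2, ?_⟩
    · rw [hdlD, ← sub_mul, abs_mul, abs_of_pos hlq]
      have h1 : |((N : ℝ) - (v.ord (dsc A B) : ℝ))| ≤
          ((v.ord 6912 + 3 * v.ord 3 + 12 + v.ord 16 : ℤ) : ℝ) := by
        have h2 : |((N : ℤ) - v.ord (dsc A B))| ≤ v.ord 6912 + 3 * v.ord 3 + 12 + v.ord 16 := by
          rw [abs_le]; omega
        exact_mod_cast h2
      have h3 := mul_le_mul_of_nonneg_right h1 hlq.le
      linarith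
    · intro k hk; have := hU1 k hk; linarith
    · intro k hk
      have h1 := hU3 (12 * k) (by omega)
      have e1 : (((12 * k : ℕ) : ℝ) * ((a : ℝ) / (2 * N))) = k * (6 * a / N) := by
        push_cast; field_simp; ring
      rw [e1] at h1
      have h2 : Real.log (v.nr (dsc A B)) = -(v.ord (dsc A B) : ℝ) * Real.log v.q := v.log_nr hD
      rw [v.ord_mul _ _ (by norm_num) hD] at hr
      have hrR : (v.ord 16 : ℝ) + (v.ord (dsc A B) : ℝ) = N + 6 * r := by exact_mod_cast hr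
      have h3 : (v.ord (dsc A B) : ℝ) = N + 6 * r - v.ord 16 := by linarith
      rw [h2, h3]
      have h4 : (0 : ℝ) ≤ (v.ord 16 : ℝ) * Real.log v.q :=
        mul_nonneg (by exact_mod_cast h160) hlq.le
      have h5 : (v.ord 16 : ℝ) * Real.log v.q ≤ C₂ := by
        apply mul_le_mul_of_nonneg_right _ hlq.le
        exact_mod_cast (by omega : v.ord 16 ≤ v.ord 6912 + 3 * v.ord 3 + 12 + v.ord 16)
      have h6 : (N : ℝ) * Real.log v.q * (B2 (k * (6 * a / N)) - 1 / 6) =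
        N * Real.log v.q * B2 (k * (6 * a / N)) - 1 / 6 * (N * Real.log v.q) := by ring
      rw [h6] at h1
      push_cast at h1
      linarith

end Pool.Agent.Helper42.LK
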